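import Mathlib

/-!
# Extremal numbers: almost monotone in `n`, and at least linear
-/

namespace Pool.Agent.Lib.Helper15.Glue

open SimpleGraph Finset

lemma card_le_of_copy {V W : Type*} [Fintype V] [Fintype W] {A : SimpleGraph V}
    {B : SimpleGraph W} [DecidableRel A.Adj] [DecidableRel B.Adj] (f : Copy A B) :
    #A.edgeFinset ≤ #B.edgeFinset := by
  have h := Fintype.card_le_of_injective f.mapEdgeSet f.mapEdgeSet.injective
  have h1 : #A.edgeFinset = Fintype.card A.edgeSet := edgeFinset_card
  have h2 : #B.edgeFinset = Fintype.card B.edgeSet := edgeFinset_card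
  rw [h1, h2]
  exact h

lemma extremalNumber_le_sq {W : Type*} (H : SimpleGraph W) (k : ℕ) :
    extremalNumber k H ≤ k ^ 2 := by
  classical
  have h := (extremalNumber_le_iff (V := Fin k) H (k ^ 2)).2 (by
    intro G _ _
    calc #G.edgeFinset ≤ (Fintype.card (Fin k)).choose 2 := card_edgeFinset_le_card_choose_two
      _ = k.choose 2 := by rw [Fintype.card_fin]
      _ ≤ k ^ 2 := Nat.choose_le_pow k 2)
  rwa [Fintype.card_fin] at h

/-- A graph which is the image of an `H`-free graph on at least `|V(H)|` vertices under an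
embedding is `H`-free, whether or not `H` has isolated vertices. -/
lemma free_map {W V V' : Type*} [Fintype W] [Fintype V] {H : SimpleGraph W} {G : SimpleGraph V}
    (f : V ↪ V') (hfree : H.Free G) (hk : Fintype.card W ≤ Fintype.card V) :
    H.Free (G.map f) := by
  classical
  rintro ⟨c⟩
  set A : Finset W := univ.filter (fun x => ∃ y, H.Adj x y) with hA
  have hr : ∀ x, x ∈ A → ∃ z, f z = c x := by
    intro x hx
    obtain ⟨y, hy⟩ := (mem_filter.1 hx).2
    obtain ⟨-, a, b, -, ha, -⟩ := (map_adj' f G _ _).1 (c.toHom.map_adj hy)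
    exact ⟨a, ha⟩
  have hne : ∀ x : W, Nonempty V := by
    intro x
    by_contra hV
    have h0 : Fintype.card V = 0 := Fintype.card_eq_zero_iff.2 (not_nonempty_iff.1 hV)
    have h1 : 0 < Fintype.card W := Fintype.card_pos_iff.2 ⟨x⟩
    omega
  set g : W → V := fun x => if h : x ∈ A then (hr x h).choose else (hne x).some with hg
  have hg1 : ∀ x ∈ A, f (g x) = c x := by
    intro x hx
    simp only [hg, dif_pos hx]
    exact (hr x hx).choose_spec
  have hinj : Set.InjOn g A := by
    intro x hx y hy hxy
    have h1 := hg1 x hx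
    have h2 := hg1 y hy
    rw [hxy] at h1
    exact c.injective (h1.symm.trans h2)
  obtain ⟨t, ht1, -, ht3⟩ := exists_subsuperset_card_eq (subset_univ (image g A))
    ((card_image_le).trans (card_le_univ A)) (by rwa [card_univ])
  obtain ⟨e, he⟩ := exists_equiv_extend_of_card_eq (ht3.symm) ht1 hinj
  refine hfree ⟨⟨⟨fun x => (e x : V), ?_⟩, ?_⟩⟩
  · intro x y hxy
    have hx : x ∈ A := mem_filter.2 ⟨mem_univ _, y, hxy⟩
    have hy : y ∈ A := mem_filter.2 ⟨mem_univ _, x, hxy.symm⟩
    have h1 := c.toHom.map_adj hxy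
    rw [Copy.toHom_apply, Copy.toHom_apply, ← hg1 x hx, ← hg1 y hy, map_adj_apply] at h1
    rw [he x hx, he y hy]
    exact h1
  · intro x y hxy
    exact e.injective (Subtype.ext hxy)

/-- The extremal number is non-decreasing up to a bounded error. -/
theorem extremalNumber_le_add {W : Type*} [Fintype W] (H : SimpleGraph W) {k n : ℕ}
    (h : k ≤ n) : extremalNumber k H ≤ extremalNumber n H + Fintype.card W ^ 2 := by
  classical
  rcases le_or_gt k (Fintype.card W) with hk | hk
  · calc extremalNumber k H ≤ k ^ 2 := extremalNumber_le_sq H k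
      _ ≤ Fintype.card W ^ 2 := Nat.pow_le_pow_left hk 2
      _ ≤ _ := Nat.le_add_left _ _
  · have h1 := (extremalNumber_le_iff (V := Fin k) H (extremalNumber n H)).2 (by
      intro G _ hG
      have h2 : H.Free (G.map (Fin.castLEEmb h)) :=
        free_map (Fin.castLEEmb h) hG (by rw [Fintype.card_fin]; omega)
      have h3 := card_edgeFinset_le_extremalNumber h2
      rw [Fintype.card_fin] at h3
      exact (card_le_of_copy (SimpleGraph.Embedding.map (Fin.castLEEmb h) G).toCopy).trans h3)
    rw [Fintype.card_fin] at h1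
    omega

end Pool.Agent.Lib.Helper15.Glue
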