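import Pool.Agent.Lib.Helper15.Glue.Closure

/-!
# Decomposition into blocks
-/

namespace Pool.Agent.Lib.Helper15.Glue

open SimpleGraph

/-- The subgraph of `H` induced on `B` is 2-connected: it has at least three vertices, it is
connected, and it stays connected when any one of its vertices is deleted. -/
def TwoConn {W : Type*} (H : SimpleGraph W) (B : Set W) : Prop :=
  3 ≤ B.ncard ∧ (H.induce B).Connected ∧ ∀ x ∈ B, (H.induce (B \ {x})).Connected

/-- `B` is (the vertex set of) a 2-connected block of `H`: a maximal set of vertices inducing a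
2-connected subgraph. (The other blocks of a graph are single edges and isolated vertices.) -/
def IsBlock {W : Type*} (H : SimpleGraph W) (B : Set W) : Prop := Maximal (TwoConn H) B

/-- A separation of order at most one of `H[S]`. -/
def Sep {W : Type*} (H : SimpleGraph W) (S S₁ S₂ : Set W) : Prop :=
  S₁ ∪ S₂ = S ∧ S₁ ≠ S ∧ S₂ ≠ S ∧ (S₁ ∩ S₂).Subsingleton ∧
    ∀ a ∈ S₁, ∀ b ∈ S₂, H.Adj a b → a ∈ S₂ ∨ b ∈ S₁

lemma Sep.symm {W : Type*} {H : SimpleGraph W} {S S₁ S₂ : Set W} (h : Sep H S S₁ S₂) :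
    Sep H S S₂ S₁ := by
  obtain ⟨h1, h2, h3, h4, h5⟩ := h
  refine ⟨by rw [Set.union_comm]; exact h1, h3, h2, by rw [Set.inter_comm]; exact h4, ?_⟩
  intro a ha b hb hab
  rcases h5 b hb a ha hab.symm with h | h
  · exact Or.inr h
  · exact Or.inl h

lemma preconn_invariant {V : Type*} {G : SimpleGraph V} (hG : G.Preconnected) (Q : V → Prop)
    (h : ∀ a b, G.Adj a b → Q a → Q b) {a : V} (ha : Q a) (b : V) : Q b := by
  obtain ⟨p⟩ := hG a b
  induction p with
  | nil => exact ha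
  | cons hab _ ih => exact ih (h _ _ hab ha)

/-- A 2-connected set lies on one side of every separation of order at most one. -/
lemma TwoConn.subset_of_sep {W : Type*} {H : SimpleGraph W} {S S₁ S₂ B : Set W}
    (hB : TwoConn H B) (hBS : B ⊆ S) (h : Sep H S S₁ S₂) : B ⊆ S₁ ∨ B ⊆ S₂ := by
  classical
  obtain ⟨hU, -, -, hsub, hcross⟩ := h
  by_contra hcon
  push Not at hcon
  obtain ⟨h1, h2⟩ := hcon
  obtain ⟨b₂, hb₂B, hb₂⟩ := Set.not_subset.1 h1
  obtain ⟨b₁, hb₁B, hb₁⟩ := Set.not_subset.1 h2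
  -- the vertex in common, if it lies in `B`
  obtain ⟨T, hTB, hTc, hT, hb₁T, hb₂T⟩ : ∃ T : Set W, T ⊆ B ∧ (H.induce T).Preconnected ∧
      (∀ a ∈ T, ¬ (a ∈ S₁ ∧ a ∈ S₂)) ∧ b₁ ∈ T ∧ b₂ ∈ T := by
    by_cases hx : ∃ x ∈ B, x ∈ S₁ ∧ x ∈ S₂
    · obtain ⟨x, hxB, hx1, hx2⟩ := hx
      refine ⟨B \ {x}, Set.sdiff_subset, (hB.2.2 x hxB).preconnected, ?_, ?_, ?_⟩
      · intro a ha hab
        exact ha.2 (hsub hab ⟨hx1, hx2⟩)
      · exact ⟨hb₁B, fun h => hb₁ (h ▸ hx2)⟩
      · exact ⟨hb₂B, fun h => hb₂ (h ▸ hx1)⟩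
    · refine ⟨B, subset_rfl, hB.2.1.preconnected, ?_, hb₁B, hb₂B⟩
      intro a ha hab
      exact hx ⟨a, ha, hab⟩
  have hmem : ∀ a ∈ T, a ∈ S₁ ∨ a ∈ S₂ := fun a ha => (hU.symm.subset (hBS (hTB ha)) :)
  have hb₁' : b₁ ∈ S₁ := (hmem b₁ hb₁T).resolve_right hb₁
  refine hb₂ (preconn_invariant hTc (fun a => a.1 ∈ S₁) ?_ (a := ⟨b₁, hb₁T⟩) hb₁' ⟨b₂, hb₂T⟩)
  rintro ⟨a, ha⟩ ⟨b, hb⟩ hab ha1
  have hab' : H.Adj a b := hab
  by_contra hb1
  have hb2 : b ∈ S₂ := (hmem b hb).resolve_left hb1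
  rcases hcross a ha1 b hb2 hab' with h3 | h3
  · exact hT a ha ⟨ha1, h3⟩
  · exact hb1 h3

/-- A disconnection of `H[S \ X]` with `|X| ≤ 1` gives a separation of order at most one. -/
lemma exists_sep {W : Type*} {H : SimpleGraph W} {S X : Set W} (hXS : X ⊆ S)
    (hX : X.Subsingleton) (h : ¬ (H.induce (S \ X)).Preconnected) :
    ∃ S₁ S₂, Sep H S S₁ S₂ := by
  classical
  unfold SimpleGraph.Preconnected at h
  push Not at h
  obtain ⟨⟨a, ha⟩, ⟨b, hb⟩, hab⟩ := h
  set R : Set W := {s | ∃ hs : s ∈ S \ X, (H.induce (S \ X)).Reachable ⟨a, ha⟩ ⟨s, hs⟩} with hR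
  have hRS : R ⊆ S \ X := fun s hs => hs.1
  have haR : a ∈ R := ⟨ha, Reachable.refl _⟩
  have hbR : b ∉ R := fun hbR => hab hbR.2
  refine ⟨R ∪ X, (S \ R), ?_, ?_, ?_, ?_, ?_⟩
  · ext s
    simp only [Set.mem_union, Set.mem_sdiff]
    constructor
    · rintro ((hs | hs) | hs)
      · exact (hRS hs).1
      · exact hXS hs
      · exact hs.1
    · intro hs
      by_cases hsR : s ∈ R
      · exact Or.inl (Or.inl hsR)
      · exact Or.inr ⟨hs, hsR⟩
  · intro heq
    have : b ∈ R ∪ X := heq.symm.subset hb.1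
    rcases this with h | h
    · exact hbR h
    · exact hb.2 h
  · intro heq
    have : a ∈ S \ R := heq.symm.subset ha.1
    exact this.2 haR
  · refine hX.anti ?_
    rintro s ⟨hs1 | hs1, hs2⟩
    · exact absurd hs1 hs2.2
    · exact hs1
  · rintro s (hs | hs) t ht hst
    · right
      by_cases htX : t ∈ X
      · exact Or.inr htX
      · left
        have ht' : t ∈ S \ X := ⟨ht.1, htX⟩
        refine ⟨ht', ?_⟩
        obtain ⟨hs', hreach⟩ := hs
        exact hreach.trans (Adj.reachable (show (H.induce (S \ X)).Adj ⟨s, hs'⟩ ⟨t, ht'⟩ from hst))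
    · left
      refine ⟨hXS hs, fun hsR => ?_⟩
      exact (hRS hsR).2 hs

lemma twoConn_of_not_sep {W : Type*} {H : SimpleGraph W} {S : Set W}
    (h3 : 3 ≤ S.ncard) (h : ¬ ∃ S₁ S₂, Sep H S S₁ S₂) : TwoConn H S := by
  have hfin : S.Finite := Set.finite_of_ncard_pos (by omega)
  refine ⟨h3, ?_, ?_⟩
  · have h1 : (H.induce (S \ ∅)).Preconnected := by
      by_contra hcon
      exact h (exists_sep (Set.empty_subset _) Set.subsingleton_empty hcon)
    rw [Set.sdiff_empty] at h1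
    have hne : S.Nonempty := by
      rw [← Set.ncard_pos hfin]
      omega
    have : Nonempty S := hne.to_subtype
    exact ⟨h1⟩
  · intro x hx
    have h1 : (H.induce (S \ {x})).Preconnected := by
      by_contra hcon
      exact h (exists_sep (Set.singleton_subset_iff.2 hx) Set.subsingleton_singleton hcon)
    have hne : (S \ {x}).Nonempty := by
      rw [← Set.ncard_pos hfin.sdiff, Set.ncard_sdiff_singleton_of_mem hx]
      omega
    have : Nonempty (S \ {x} : Set W) := hne.to_subtype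
    exact ⟨h1⟩

/-- If all 2-connected blocks of `H[S]` satisfy `ESAt` at all their vertices, then so does
`H[S]`. -/
theorem esAt_of_blocks_aux {W : Type*} [Finite W] (H : SimpleGraph W) :
    ∀ (k : ℕ) (S : Set W), S.ncard = k →
      (∀ B, B ⊆ S → TwoConn H B → (∀ B', B' ⊆ S → TwoConn H B' → B ⊆ B' → B' ⊆ B) →
        ∀ r (hr : r ∈ B), ESAt (H.induce B) ⟨r, hr⟩) →
      ∀ v (hv : v ∈ S), ESAt (H.induce S) ⟨v, hv⟩ := by
  intro k
  induction k using Nat.strong_induction_on with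
  | _ k ih =>
    intro S hSk hyp v hv
    rcases le_or_gt S.ncard 2 with h2 | h2
    · exact esAt_small h2 hv
    by_cases hsep : ∃ S₁ S₂, Sep H S S₁ S₂
    · -- inheritance of the hypothesis
      have inh : ∀ S₁ S₂, Sep H S S₁ S₂ → ∀ w (hw : w ∈ S₁), ESAt (H.induce S₁) ⟨w, hw⟩ := by
        intro S₁ S₂ hs w hw
        have hs' := hs
        obtain ⟨hU, hne1, hne2, hsub, hcross⟩ := hs'
        have hS₁ : S₁ ⊆ S := hU ▸ Set.subset_union_left
        have hlt : S₁.ncard < k := by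
          rw [← hSk]
          exact Set.ncard_lt_ncard (hS₁.ssubset_of_ne hne1) (Set.toFinite S)
        refine ih _ hlt S₁ rfl ?_ w hw
        intro B hB hBc hmax r hr
        refine hyp B (hB.trans hS₁) hBc ?_ r hr
        intro B' hB' hB'c hBB'
        rcases hB'c.subset_of_sep hB' hs with h3 | h3
        · exact hmax B' h3 hB'c hBB'
        · exfalso
          have h4 : B ⊆ S₁ ∩ S₂ := fun b hb => ⟨hB hb, h3 (hBB' hb)⟩
          have h5 : B.ncard ≤ 1 := Set.ncard_le_one_iff_subsingleton.2 (hsub.anti h4)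
          have h6 := hBc.1
          omega
      have step : ∀ S₁ S₂, Sep H S S₁ S₂ → v ∈ S₁ → ESAt (H.induce S) ⟨v, hv⟩ := by
        intro S₁ S₂ hs hv1
        have h1 := inh S₁ S₂ hs v hv1
        have hs' := hs
        obtain ⟨hU, hne1, hne2, hsub, hcross⟩ := hs'
        rcases Set.eq_empty_or_nonempty (S₁ ∩ S₂) with h0 | ⟨x, hx⟩
        · refine esAt_disjoint hU ?_ (Set.disjoint_iff_inter_eq_empty.2 h0) hv1 hv h1
          intro a ha b hb hab
          rcases hcross a ha b hb hab with h3 | h3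
          · exact (h0.subset ⟨ha, h3⟩ : a ∈ (∅ : Set W))
          · exact (h0.subset ⟨h3, hb⟩ : b ∈ (∅ : Set W))
        · exact esAt_cut hU hcross hx.1 hx.2 (fun a ha1 ha2 => hsub ⟨ha1, ha2⟩ hx) hv1 hv h1
            (inh S₂ S₁ hs.symm x hx.2)
      obtain ⟨S₁, S₂, hs⟩ := hsep
      have hvU : v ∈ S₁ ∪ S₂ := hs.1.symm.subset hv
      rcases hvU with h | h
      · exact step S₁ S₂ hs h
      · exact step S₂ S₁ hs.symm h
    · exact hyp S subset_rfl (twoConn_of_not_sep (by omega) hsep) (fun B' hB' _ _ => hB') v hv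

lemma ESAt.of_iso {W W' : Type*} {H : SimpleGraph W} {H' : SimpleGraph W'} {r : W}
    (e : H ≃g H') (h : ESAt H r) : ESAt H' (e r) := by
  obtain ⟨C, hC⟩ := h
  refine ⟨C, fun n G P hP hc => ?_⟩
  have h1 : extremalNumber n H ≤ extremalNumber n H' :=
    IsContained.extremalNumber_le ⟨e.toCopy⟩
  refine (hC n G P hP fun c => ?_).trans (Nat.mul_le_mul_left _ (Nat.add_le_add_right h1 _))
  have h2 := hc (c.comp e.symm.toCopy)
  have h3 : (c.comp e.symm.toCopy) (e r) = c (e.symm (e r)) := rfl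
  rw [h3, e.symm_apply_apply] at h2
  exact h2

/-- If all 2-connected blocks of the finite graph `H` satisfy `ESAt` at all their vertices, then
so does `H`. -/
theorem esAt_of_isBlock {W : Type*} [Finite W] (H : SimpleGraph W)
    (h : ∀ B, IsBlock H B → ∀ r : B, ESAt (H.induce B) r) (v : W) : ESAt H v := by
  have h1 := esAt_of_blocks_aux H _ Set.univ rfl (fun B _ hB hmax r hr =>
    h B ⟨hB, fun B' hB' hBB' => hmax B' (Set.subset_univ _) hB' hBB'⟩ ⟨r, hr⟩) v
    (Set.mem_univ v)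
  exact h1.of_iso (SimpleGraph.induceUnivIso H)

end Pool.Agent.Lib.Helper15.Glue
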