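import Pool.Agent.Lib.Helper15.Glue.ES

/-!
# The asymmetric property is inherited through separations of order at most one
-/

namespace Pool.Agent.Lib.Helper15.Glue

open SimpleGraph Finset

/-- Copies of the two sides of a separation which agree exactly where they should combine to a
copy of the whole graph. -/
lemma exists_combine {W V : Type*} {H : SimpleGraph W} {G : SimpleGraph V} {S₁ S₂ S : Set W}
    (hS : S₁ ∪ S₂ = S) (hcross : ∀ a ∈ S₁, ∀ b ∈ S₂, H.Adj a b → a ∈ S₂ ∨ b ∈ S₁)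
    (c₁ : Copy (H.induce S₁) G) (c₂ : Copy (H.induce S₂) G)
    (h : ∀ (a : S₁) (b : S₂), c₁ a = c₂ b ↔ a.1 = b.1) :
    ∃ c : Copy (H.induce S) G, ∀ (a : W) (ha : a ∈ S₁) (ha' : a ∈ S),
      c ⟨a, ha'⟩ = c₁ ⟨a, ha⟩ := by
  classical
  have h2 : ∀ s : S, s.1 ∉ S₁ → s.1 ∈ S₂ := by
    intro s hs
    have h3 : s.1 ∈ S₁ ∪ S₂ := hS.symm.subset s.2
    exact h3.resolve_left hs
  set f : S → V := fun s => if hs : s.1 ∈ S₁ then c₁ ⟨s.1, hs⟩ else c₂ ⟨s.1, h2 s hs⟩ with hf
  have hf1 : ∀ (s : S) (hs : s.1 ∈ S₁), f s = c₁ ⟨s.1, hs⟩ := by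
    intro s hs
    simp only [hf, dif_pos hs]
  have hf2 : ∀ (s : S) (hs : s.1 ∈ S₂), f s = c₂ ⟨s.1, hs⟩ := by
    intro s hs
    by_cases hs1 : s.1 ∈ S₁
    · rw [hf1 s hs1]
      exact (h ⟨s.1, hs1⟩ ⟨s.1, hs⟩).2 rfl
    · simp only [hf, dif_neg hs1]
  refine ⟨⟨⟨f, ?_⟩, ?_⟩, fun a ha ha' => hf1 ⟨a, ha'⟩ ha⟩
  · intro s t hst
    have hst' : H.Adj s.1 t.1 := hst
    have both : (s.1 ∈ S₁ ∧ t.1 ∈ S₁) ∨ (s.1 ∈ S₂ ∧ t.1 ∈ S₂) := by
      by_cases hs1 : s.1 ∈ S₁
      · by_cases ht1 : t.1 ∈ S₁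
        · exact Or.inl ⟨hs1, ht1⟩
        · have ht2 := h2 t ht1
          rcases hcross _ hs1 _ ht2 hst' with h3 | h3
          · exact Or.inr ⟨h3, ht2⟩
          · exact absurd h3 ht1
      · have hs2 := h2 s hs1
        by_cases ht2 : t.1 ∈ S₂
        · exact Or.inr ⟨hs2, ht2⟩
        · have ht1 : t.1 ∈ S₁ := by
            by_contra h4
            exact ht2 (h2 t h4)
          rcases hcross _ ht1 _ hs2 hst'.symm with h3 | h3
          · exact absurd h3 ht2
          · exact absurd h3 hs1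
    rcases both with ⟨hs, ht⟩ | ⟨hs, ht⟩
    · rw [hf1 s hs, hf1 t ht]
      exact c₁.toHom.map_adj (show (H.induce S₁).Adj ⟨s.1, hs⟩ ⟨t.1, ht⟩ from hst')
    · rw [hf2 s hs, hf2 t ht]
      exact c₂.toHom.map_adj (show (H.induce S₂).Adj ⟨s.1, hs⟩ ⟨t.1, ht⟩ from hst')
  · intro s t hst
    have hst : f s = f t := hst
    apply Subtype.ext
    by_cases hs1 : s.1 ∈ S₁ <;> by_cases ht1 : t.1 ∈ S₁
    · rw [hf1 s hs1, hf1 t ht1] at hst
      exact Subtype.mk.inj (c₁.injective hst)
    · rw [hf1 s hs1, hf2 t (h2 t ht1)] at hst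
      exact (h ⟨s.1, hs1⟩ ⟨t.1, h2 t ht1⟩).1 hst
    · rw [hf2 s (h2 s hs1), hf1 t ht1] at hst
      exact ((h ⟨t.1, ht1⟩ ⟨s.1, h2 s hs1⟩).1 hst.symm).symm
    · rw [hf2 s (h2 s hs1), hf2 t (h2 t ht1)] at hst
      exact Subtype.mk.inj (c₂.injective hst)

/-- Inclusion of a smaller induced subgraph. -/
def copyInduceLE {W : Type*} (H : SimpleGraph W) {S T : Set W} (h : S ⊆ T) :
    Copy (H.induce S) (H.induce T) :=
  ⟨⟨fun s => ⟨s.1, h s.2⟩, fun {_ _} hab => hab⟩, fun _ _ hab =>
    Subtype.ext (Subtype.mk.inj hab)⟩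

lemma extremalNumber_induce_mono {W : Type*} (H : SimpleGraph W) {S T : Set W} (h : S ⊆ T)
    (n : ℕ) : extremalNumber n (H.induce S) ≤ extremalNumber n (H.induce T) :=
  IsContained.extremalNumber_le ⟨copyInduceLE H h⟩

/-- Closure of `ESAt` under amalgamation at a cut vertex. -/
theorem esAt_cut {W : Type*} [Finite W] {H : SimpleGraph W} {S₁ S₂ S : Set W}
    (hS : S₁ ∪ S₂ = S) (hcross : ∀ a ∈ S₁, ∀ b ∈ S₂, H.Adj a b → a ∈ S₂ ∨ b ∈ S₁)
    {x v : W} (hx1 : x ∈ S₁) (hx2 : x ∈ S₂) (hx : ∀ a, a ∈ S₁ → a ∈ S₂ → a = x)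
    (hv1 : v ∈ S₁) (hv : v ∈ S) (h₁ : ESAt (H.induce S₁) ⟨v, hv1⟩)
    (h₂ : ESAt (H.induce S₂) ⟨x, hx2⟩) : ESAt (H.induce S) ⟨v, hv⟩ := by
  classical
  have : Fintype W := Fintype.ofFinite W
  obtain ⟨C₁, hC₁⟩ := h₁.bound
  obtain ⟨C₂, hC₂⟩ := h₂.main
  have hS₁ : S₁ ⊆ S := hS ▸ Set.subset_union_left
  have hS₂ : S₂ ⊆ S := hS ▸ Set.subset_union_right
  refine ⟨C₂ * (C₁ * (Fintype.card S₁ ^ 2 + 1) + 1), fun n G P hP hc => ?_⟩
  rcases Nat.eq_zero_or_pos n with hn0 | hn0
  · subst hn0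
    have h0 : G.edgeSet = ∅ := by
      ext e
      induction e with | _ a b
      exact a.elim0
    rw [h0, Set.ncard_empty]
    exact Nat.zero_le _
  have h3 := hC₂ G (C₁ * (extremalNumber n (H.induce S) + Fintype.card S₁ ^ 2 + n)) (by
    intro Z hZ
    have hproper : ∀ a b, (G.induce Z).Adj a b →
        (a ∈ {w : Z | w.1 ∈ P} ↔ b ∉ {w : Z | w.1 ∈ P}) := by
      intro a b hab
      exact hP a.1 b.1 hab
    have hcopies : ∀ c : Copy (H.induce S₁) (G.induce Z),
        c ⟨v, hv1⟩ ∈ {w : Z | w.1 ∈ P} := by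
      intro c
      obtain ⟨d, hd, hdZ⟩ := hZ (c ⟨x, hx1⟩) (c ⟨x, hx1⟩).2
      obtain ⟨e, he⟩ := exists_combine hS hcross ((Copy.induce G Z).comp c) d (by
        intro a b
        have ha : ((Copy.induce G Z).comp c) a = (c a).1 := rfl
        rw [ha]
        constructor
        · intro hab
          have hb : b = ⟨x, hx2⟩ := by
            by_contra hb
            exact hdZ b hb (hab ▸ (c a).2)
          rw [hb, hd] at hab
          have := c.injective (Subtype.ext hab)
          rw [hb, this]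
        · intro hab
          have hax : a.1 = x := hx a.1 a.2 (hab ▸ b.2)
          have ha' : a = ⟨x, hx1⟩ := Subtype.ext hax
          have hb' : b = ⟨x, hx2⟩ := Subtype.ext (hab ▸ hax)
          rw [ha', hb', hd])
      have h5 := hc e
      rw [he v hv1 hv] at h5
      exact h5
    refine (hC₁ (G.induce Z) _ hproper hcopies).trans (Nat.mul_le_mul_left _ ?_)
    have h6 : Fintype.card Z ≤ n := by simpa using set_fintype_card_le_univ Z
    refine Nat.add_le_add ((extremalNumber_le_add _ h6).trans ?_) h6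
    exact Nat.add_le_add_right (extremalNumber_induce_mono H hS₁ n) _)
  refine h3.trans ?_
  rw [Fintype.card_fin, mul_assoc]
  refine Nat.mul_le_mul_left _ ?_
  have h4 := extremalNumber_induce_mono H hS₂ n
  have h5 : Fintype.card S₁ ^ 2 ≤ Fintype.card S₁ ^ 2 * n := Nat.le_mul_of_pos_right _ hn0
  generalize extremalNumber n (H.induce S₂) = y at *
  generalize extremalNumber n (H.induce S) = z at *
  generalize Fintype.card S₁ ^ 2 = w at *
  have h6 : z + w + n ≤ (w + 1) * (z + n) := by nlinarith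
  have h7 : C₁ * (z + w + n) ≤ C₁ * ((w + 1) * (z + n)) := Nat.mul_le_mul_left _ h6
  nlinarith

/-- Deleting `k` vertices deletes at most `k n` edges. -/
lemma ncard_edgeSet_le_induce {V : Type*} [Fintype V] (G : SimpleGraph V) (Z : Set V) :
    G.edgeSet.ncard ≤ (G.induce Z).edgeSet.ncard + Zᶜ.ncard * Fintype.card V := by
  classical
  have h1 : #{p : V × V | p.1 ∈ Z.toFinset ∧ p.2 ∈ Z.toFinset ∧ G.Adj p.1 p.2} ≤
      2 * (G.induce Z).edgeSet.ncard := by
    have h := pairs_le_induce G Z.toFinset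
    have h2 : ((Z.toFinset : Finset V) : Set V) = Z := Set.coe_toFinset Z
    rw [← ncard_edgeSet, h2] at h
    exact h
  have h2 : 2 * G.edgeSet.ncard = #(univ.filter (fun p : V × V => G.Adj p.1 p.2)) := by
    rw [ncard_edgeSet, two_mul_card_edgeFinset]
  have h3 : (univ.filter (fun p : V × V => G.Adj p.1 p.2)) ⊆
      ({p : V × V | p.1 ∈ Z.toFinset ∧ p.2 ∈ Z.toFinset ∧ G.Adj p.1 p.2} : Finset (V × V)) ∪
      ((Zᶜ.toFinset ×ˢ (univ : Finset V)) ∪ ((univ : Finset V) ×ˢ Zᶜ.toFinset)) := by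
    intro p hp
    simp only [mem_filter, mem_univ, true_and] at hp
    simp only [mem_union, mem_filter, mem_univ, true_and, mem_product, Set.mem_toFinset,
      Set.mem_compl_iff, and_true]
    tauto
  have h4 : #(Zᶜ.toFinset ×ˢ (univ : Finset V)) = Zᶜ.ncard * Fintype.card V := by
    rw [card_product, card_univ, Set.ncard_eq_toFinset_card']
  have h5 : #((univ : Finset V) ×ˢ Zᶜ.toFinset) = Zᶜ.ncard * Fintype.card V := by
    rw [card_product, card_univ, Set.ncard_eq_toFinset_card', mul_comm]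
  have h6 := (card_le_card h3).trans ((card_union_le _ _).trans
    (Nat.add_le_add_left (card_union_le _ _) _))
  rw [h4, h5, ← h2] at h6
  omega

/-- Closure of `ESAt` under adding disjoint parts. -/
theorem esAt_disjoint {W : Type*} [Finite W] {H : SimpleGraph W} {S₁ S₂ S : Set W}
    (hS : S₁ ∪ S₂ = S) (hcross : ∀ a ∈ S₁, ∀ b ∈ S₂, ¬ H.Adj a b)
    {v : W} (hdis : Disjoint S₁ S₂)
    (hv1 : v ∈ S₁) (hv : v ∈ S) (h₁ : ESAt (H.induce S₁) ⟨v, hv1⟩) :
    ESAt (H.induce S) ⟨v, hv⟩ := by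
  classical
  have : Fintype W := Fintype.ofFinite W
  obtain ⟨C₁, hC₁⟩ := h₁
  have hS₁ : S₁ ⊆ S := hS ▸ Set.subset_union_left
  have hS₂ : S₂ ⊆ S := hS ▸ Set.subset_union_right
  refine ⟨C₁ + (1 + Fintype.card S₂ ^ 2 + Fintype.card S₁), fun n G P hP hc => ?_⟩
  rcases Nat.eq_zero_or_pos n with hn0 | hn0
  · subst hn0
    have h0 : G.edgeSet = ∅ := by
      ext e
      induction e with | _ a b
      exact a.elim0
    rw [h0, Set.ncard_empty]
    exact Nat.zero_le _
  rw [add_mul]
  by_cases hall : ∀ c : Copy (H.induce S₁) G, c ⟨v, hv1⟩ ∈ P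
  · refine ((hC₁ n G P hP hall).trans ?_).trans (Nat.le_add_right _ _)
    exact Nat.mul_le_mul_left _ (Nat.add_le_add_right (extremalNumber_induce_mono H hS₁ n) _)
  · push Not at hall
    obtain ⟨c, hcP⟩ := hall
    set Z : Set (Fin n) := (Set.range c)ᶜ with hZ
    have hfree : (H.induce S₂).Free (G.induce Z) := by
      rintro ⟨d⟩
      obtain ⟨e, he⟩ := exists_combine hS (fun a ha b hb hab => absurd hab (hcross a ha b hb))
        c ((Copy.induce G Z).comp d) (by
          intro a b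
          constructor
          · intro hab
            have h5 : (d b).1 ∈ Z := (d b).2
            exact absurd ⟨a, hab⟩ h5
          · intro hab
            exact absurd (hab ▸ b.2) (Set.disjoint_left.1 hdis a.2))
      have h5 := hc e
      rw [he v hv1 hv] at h5
      exact hcP h5
    have h1 := card_edgeFinset_le_extremalNumber hfree
    rw [← ncard_edgeSet] at h1
    have h2 : Fintype.card Z ≤ n := by simpa using set_fintype_card_le_univ Z
    have h3 := extremalNumber_le_add (H.induce S₂) h2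
    have h4 := extremalNumber_induce_mono H hS₂ n
    have h5 := ncard_edgeSet_le_induce G Z
    rw [Fintype.card_fin] at h5
    have h6 : Zᶜ.ncard ≤ Fintype.card S₁ := by
      rw [hZ, compl_compl, Set.ncard_eq_toFinset_card', Set.toFinset_range]
      exact card_image_le
    have h7 : Zᶜ.ncard * n ≤ Fintype.card S₁ * n := Nat.mul_le_mul_right _ h6
    refine le_trans ?_ (Nat.le_add_left _ _)
    generalize extremalNumber n (H.induce S₂) = y at *
    generalize extremalNumber n (H.induce S) = z at *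
    generalize Fintype.card S₁ = w at *
    generalize Fintype.card S₂ ^ 2 = w' at *
    have h8 : w' ≤ w' * n := Nat.le_mul_of_pos_right _ hn0
    nlinarith

/-- Graphs on at most two vertices. -/
theorem esAt_small {W : Type*} [Finite W] {H : SimpleGraph W} {S : Set W} (hS : S.ncard ≤ 2)
    {v : W} (hv : v ∈ S) : ESAt (H.induce S) ⟨v, hv⟩ := by
  classical
  refine ⟨0, fun n G P hP hc => ?_⟩
  have hno : ∀ a b, ¬ G.Adj a b := by
    intro a b hab
    have key : ∀ a b, G.Adj a b → a ∈ P := by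
      intro a b hab
      have hother : ∀ s t : S, s.1 ≠ v → t.1 ≠ v → s = t := by
        intro s t hs ht
        by_contra hst
        have h3 : 3 ≤ S.ncard := by
          rw [Nat.succ_le_iff, Set.two_lt_ncard_iff (Set.toFinite S)]
          exact ⟨v, s.1, t.1, hv, s.2, t.2, fun h => hs h.symm, fun h => ht h.symm,
            fun h => hst (Subtype.ext h)⟩
        omega
      have hcopy := hc ⟨⟨fun s => if s.1 = v then a else b, ?_⟩, ?_⟩
      · have : (fun s : S => if s.1 = v then a else b) ⟨v, hv⟩ ∈ P := hcopy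
        simpa using this
      · intro s t hst
        have hne : s ≠ t := (H.induce S).ne_of_adj hst
        by_cases hs : s.1 = v <;> by_cases ht : t.1 = v
        · exact absurd (Subtype.ext (hs.trans ht.symm)) hne
        · simp only [hs, ht, if_true, if_false]; exact hab
        · simp only [hs, ht, if_true, if_false]; exact hab.symm
        · exact absurd (hother s t hs ht) hne
      · intro s t hst
        have hst : (if s.1 = v then a else b) = (if t.1 = v then a else b) := hst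
        by_cases hs : s.1 = v <;> by_cases ht : t.1 = v
        · exact Subtype.ext (hs.trans ht.symm)
        · simp only [hs, ht, if_true, if_false] at hst
          exact absurd hst hab.ne
        · simp only [hs, ht, if_true, if_false] at hst
          exact absurd hst hab.ne'
        · exact hother s t hs ht
    exact (hP a b hab).1 (key a b hab) (key b a hab.symm)
  have h0 : G.edgeSet = ∅ := by
    ext e
    induction e with | _ a b
    simp [hno a b]
  rw [h0, Set.ncard_empty]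
  exact Nat.zero_le _

end Pool.Agent.Lib.Helper15.Glue
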