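import Mathlib

/-!
# Averaging over random subsets
-/

namespace Pool.Agent.Lib.Helper15.Glue

open Finset

variable {V : Type*} [Fintype V] [DecidableEq V]

/-- At least `2 ^ (n - |A| - |S|)` subsets contain `A` and miss `S`. -/
lemma two_pow_le (A S : Finset V) (h : Disjoint A S) :
    2 ^ Fintype.card V ≤
      #{X : Finset V | A ⊆ X ∧ Disjoint S X} * 2 ^ (#A + #S) := by
  set R : Finset V := (A ∪ S)ᶜ with hR
  have h1 : #R + (#A + #S) = Fintype.card V := by
    rw [hR, card_compl, card_union_of_disjoint h]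
    have : #A + #S ≤ Fintype.card V := by
      rw [← card_union_of_disjoint h]; exact card_le_univ _
    omega
  have h2 : 2 ^ #R ≤ #{X : Finset V | A ⊆ X ∧ Disjoint S X} := by
    rw [← card_powerset]
    refine card_le_card_of_injOn (fun T => A ∪ T) ?_ ?_
    · intro T hT
      have hT' : T ⊆ R := mem_powerset.1 (mem_coe.1 hT)
      have hd : Disjoint S T := by
        refine disjoint_left.2 fun x hx hxT => ?_
        have := hT' hxT
        rw [hR, mem_compl, mem_union] at this
        exact this (Or.inr hx)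
      simp only [coe_filter, mem_univ, true_and, Set.mem_ofPred_eq]
      exact ⟨subset_union_left, disjoint_union_right.2 ⟨h.symm, hd⟩⟩
    · intro T hT T' hT' hTT'
      have hT1 : T ⊆ R := mem_powerset.1 (mem_coe.1 hT)
      have hT2 : T' ⊆ R := mem_powerset.1 (mem_coe.1 hT')
      have key : ∀ {T : Finset V}, T ⊆ R → (A ∪ T) ∩ R = T := by
        intro T hT
        ext x
        simp only [mem_inter, mem_union]
        constructor
        · rintro ⟨hx | hx, hxR⟩
          · rw [hR, mem_compl, mem_union] at hxR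
            exact absurd (Or.inl hx) hxR
          · exact hx
        · intro hx
          exact ⟨Or.inr hx, hT hx⟩
      have := congrArg (· ∩ R) hTT'
      simpa only [key hT1, key hT2] using this
  calc 2 ^ Fintype.card V = 2 ^ #R * 2 ^ (#A + #S) := by rw [← h1, pow_add]
    _ ≤ _ := Nat.mul_le_mul_right _ h2

/-- The vertices of `X` whose associated set misses `X`. -/
def goodIn (S : V → Finset V) (X : Finset V) : Finset V := X.filter (fun w => Disjoint (S w) X)

/-- Averaging: if, for every `X`, at most `B` of the pairs in `D` have both ends in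
`goodIn S X`, then `D` has at most `4 ^ (t + 1) * B + 2 t n` elements. -/
theorem averaging (D : Finset (V × V)) (S : V → Finset V) (t B : ℕ)
    (ht : ∀ w, #(S w) ≤ t) (hS : ∀ w, w ∉ S w)
    (hB : ∀ X : Finset V, #{p ∈ D | p.1 ∈ goodIn S X ∧ p.2 ∈ goodIn S X} ≤ B) :
    #D ≤ 4 ^ (t + 1) * B + 2 * t * Fintype.card V := by
  set n := Fintype.card V with hn
  set D' := D.filter (fun p => p.1 ∉ S p.2 ∧ p.2 ∉ S p.1) with hD'
  set E₁ : Finset (V × V) := univ.filter (fun p => p.1 ∈ S p.2) with hE₁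
  set E₂ : Finset (V × V) := univ.filter (fun p => p.2 ∈ S p.1) with hE₂
  have hE₂c : #E₂ ≤ n * t := by
    have : E₂ = (univ : Finset V).biUnion (fun w => (S w).map ⟨fun x => (w, x), fun _ _ h => by
        simpa using h⟩) := by
      ext ⟨a, b⟩
      simp [hE₂]
    rw [this]
    refine card_biUnion_le.trans ?_
    calc ∑ w : V, #((S w).map _) ≤ ∑ _w : V, t :=
          sum_le_sum (fun w _ => by rw [card_map]; exact ht w)
      _ = n * t := by rw [sum_const, card_univ, smul_eq_mul]
  have hE₁c : #E₁ ≤ n * t := by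
    have : E₁ = (univ : Finset V).biUnion (fun w => (S w).map ⟨fun x => (x, w), fun _ _ h => by
        simpa using h⟩) := by
      ext ⟨a, b⟩
      simp [hE₁]
    rw [this]
    refine card_biUnion_le.trans ?_
    calc ∑ w : V, #((S w).map _) ≤ ∑ _w : V, t :=
          sum_le_sum (fun w _ => by rw [card_map]; exact ht w)
      _ = n * t := by rw [sum_const, card_univ, smul_eq_mul]
  have hsplit : #D ≤ #D' + (#E₁ + #E₂) := by
    have : D ⊆ D' ∪ (E₁ ∪ E₂) := by
      intro p hp
      simp only [mem_union, hD', hE₁, hE₂, mem_filter, mem_univ, true_and]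
      by_cases h1 : p.1 ∈ S p.2
      · exact Or.inr (Or.inl h1)
      · by_cases h2 : p.2 ∈ S p.1
        · exact Or.inr (Or.inr h2)
        · exact Or.inl ⟨hp, h1, h2⟩
    refine (card_le_card this).trans ((card_union_le _ _).trans ?_)
    exact Nat.add_le_add_left (card_union_le _ _) _
  -- the main count
  have hpair : ∀ p ∈ D', 2 ^ n ≤
      #{X : Finset V | p.1 ∈ goodIn S X ∧ p.2 ∈ goodIn S X} * 4 ^ (t + 1) := by
    intro p hp
    obtain ⟨hpD, hp1, hp2⟩ := mem_filter.1 hp
    have hdis : Disjoint ({p.1, p.2} : Finset V) (S p.1 ∪ S p.2) := by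
      rw [disjoint_left]
      intro x hx
      rw [mem_insert, mem_singleton] at hx
      rw [mem_union, not_or]
      rcases hx with rfl | rfl
      · exact ⟨hS _, hp1⟩
      · exact ⟨hp2, hS _⟩
    have h1 := two_pow_le ({p.1, p.2} : Finset V) (S p.1 ∪ S p.2) hdis
    have h2 : #({p.1, p.2} : Finset V) + #(S p.1 ∪ S p.2) ≤ 2 * (t + 1) := by
      have h3 : #({p.1, p.2} : Finset V) ≤ 2 := card_le_two
      have h4 := card_union_le (S p.1) (S p.2)
      have h5 := ht p.1
      have h6 := ht p.2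
      omega
    have h3 : (2 : ℕ) ^ (#({p.1, p.2} : Finset V) + #(S p.1 ∪ S p.2)) ≤ 4 ^ (t + 1) := by
      calc (2 : ℕ) ^ (#({p.1, p.2} : Finset V) + #(S p.1 ∪ S p.2)) ≤ 2 ^ (2 * (t + 1)) :=
            Nat.pow_le_pow_right (by norm_num) h2
        _ = 4 ^ (t + 1) := by rw [pow_mul]; norm_num
    refine h1.trans (Nat.mul_le_mul ?_ h3)
    refine card_le_card ?_
    intro X hX
    simp only [mem_filter, mem_univ, true_and] at hX ⊢
    obtain ⟨hX1, hX2⟩ := hX
    rw [disjoint_union_left] at hX2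
    simp only [goodIn, mem_filter]
    exact ⟨⟨hX1 (by simp), hX2.1⟩, ⟨hX1 (by simp), hX2.2⟩⟩
  have hmain : #D' * 2 ^ n ≤ (2 ^ n * B) * 4 ^ (t + 1) := by
    calc #D' * 2 ^ n = ∑ _p ∈ D', 2 ^ n := by rw [sum_const, smul_eq_mul]
      _ ≤ ∑ p ∈ D', #{X : Finset V | p.1 ∈ goodIn S X ∧ p.2 ∈ goodIn S X} * 4 ^ (t + 1) :=
          sum_le_sum hpair
      _ = (∑ p ∈ D', #{X : Finset V | p.1 ∈ goodIn S X ∧ p.2 ∈ goodIn S X}) * 4 ^ (t + 1) := by
          rw [sum_mul]
      _ = (∑ X : Finset V, #{p ∈ D' | p.1 ∈ goodIn S X ∧ p.2 ∈ goodIn S X}) * 4 ^ (t + 1) := by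
          congr 1
          simp only [card_filter]
          exact sum_comm
      _ ≤ (∑ _X : Finset V, B) * 4 ^ (t + 1) := by
          refine Nat.mul_le_mul_right _ (sum_le_sum fun X _ => ?_)
          refine le_trans (card_le_card ?_) (hB X)
          exact filter_subset_filter _ (filter_subset _ _)
      _ = (2 ^ n * B) * 4 ^ (t + 1) := by
          rw [sum_const, card_univ, Fintype.card_finset, smul_eq_mul]
  have hD'c : #D' ≤ 4 ^ (t + 1) * B := by
    have h0 : 0 < 2 ^ n := by positivity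
    refine Nat.le_of_mul_le_mul_right ?_ h0
    calc #D' * 2 ^ n ≤ (2 ^ n * B) * 4 ^ (t + 1) := hmain
      _ = 4 ^ (t + 1) * B * 2 ^ n := by ring
  calc #D ≤ #D' + (#E₁ + #E₂) := hsplit
    _ ≤ 4 ^ (t + 1) * B + (n * t + n * t) := by omega
    _ = 4 ^ (t + 1) * B + 2 * t * n := by ring

end Pool.Agent.Lib.Helper15.Glue
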