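import Mathlib

/-!
# Gluing two graphs at a vertex
-/

namespace Pool.Agent.Lib.Helper15.Glue

open SimpleGraph

variable {V₁ V₂ : Type*}

open Classical in
/-- The map from the vertices of the second graph to the vertices of the glued graph: `v` is
sent to the vertex `u` of the first graph, every other vertex to itself. -/
noncomputable def glueMap (u : V₁) (v : V₂) (x : V₂) : V₁ ⊕ {x : V₂ // x ≠ v} :=
  if h : x = v then Sum.inl u else Sum.inr ⟨x, h⟩

/-- The graph `H₁^u ⊙ H₂^v`: disjoint copies of `H₁` and `H₂` with `u` and `v` merged. -/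
noncomputable def glue (H₁ : SimpleGraph V₁) (u : V₁) (H₂ : SimpleGraph V₂) (v : V₂) :
    SimpleGraph (V₁ ⊕ {x : V₂ // x ≠ v}) :=
  H₁.map Sum.inl ⊔ H₂.map (glueMap u v)

lemma glueMap_self (u : V₁) (v : V₂) : glueMap u v v = Sum.inl u := by simp [glueMap]

lemma glueMap_of_ne (u : V₁) {v x : V₂} (h : x ≠ v) : glueMap u v x = Sum.inr ⟨x, h⟩ := by
  simp [glueMap, h]

lemma glueMap_injective (u : V₁) (v : V₂) : Function.Injective (glueMap u v) := by
  intro x y hxy
  by_cases hx : x = v <;> by_cases hy : y = v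
  · rw [hx, hy]
  · rw [hx, glueMap_self, glueMap_of_ne u hy] at hxy; exact absurd hxy (by simp)
  · rw [hy, glueMap_self, glueMap_of_ne u hx] at hxy; exact absurd hxy (by simp)
  · rw [glueMap_of_ne u hx, glueMap_of_ne u hy] at hxy
    exact congrArg Subtype.val (Sum.inr_injective hxy)

lemma left_isContained (H₁ : SimpleGraph V₁) (u : V₁) (H₂ : SimpleGraph V₂) (v : V₂) :
    H₁ ⊑ glue H₁ u H₂ v :=
  ⟨⟨⟨Sum.inl, fun {_ _} h => Or.inl (map_adj_apply' h (Sum.inl_injective.ne h.ne))⟩,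
    Sum.inl_injective⟩⟩

lemma right_isContained (H₁ : SimpleGraph V₁) (u : V₁) (H₂ : SimpleGraph V₂) (v : V₂) :
    H₂ ⊑ glue H₁ u H₂ v :=
  ⟨⟨⟨glueMap u v, fun {_ _} h => Or.inr (map_adj_apply' h ((glueMap_injective u v).ne h.ne))⟩,
    glueMap_injective u v⟩⟩

/-- Two copies meeting exactly in the root give a copy of the glued graph. -/
lemma glue_isContained {V : Type*} {G : SimpleGraph V} {H₁ : SimpleGraph V₁} {u : V₁}
    {H₂ : SimpleGraph V₂} {v : V₂} (c₁ : Copy H₁ G) (c₂ : Copy H₂ G) (h : c₁ u = c₂ v)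
    (hd : ∀ x, x ≠ u → ∀ y, y ≠ v → c₁ x ≠ c₂ y) : glue H₁ u H₂ v ⊑ G := by
  set f : V₁ ⊕ {x : V₂ // x ≠ v} → V := Sum.elim c₁ (fun y => c₂ y.1) with hf
  have hf2 : ∀ x, f (glueMap u v x) = c₂ x := by
    intro x
    by_cases hx : x = v
    · rw [hx, glueMap_self]; exact h
    · rw [glueMap_of_ne u hx]; rfl
  refine ⟨⟨⟨f, ?_⟩, ?_⟩⟩
  · intro a b hab
    rcases hab with hab | hab
    · rw [map_adj'] at hab
      obtain ⟨-, a', b', h', rfl, rfl⟩ := hab
      exact c₁.toHom.map_adj h'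
    · rw [map_adj'] at hab
      obtain ⟨-, a', b', h', rfl, rfl⟩ := hab
      rw [hf2, hf2]
      exact c₂.toHom.map_adj h'
  · have hc1 := c₁.injective
    have hc2 := c₂.injective
    have hcross : ∀ (x : V₁) (y : {x : V₂ // x ≠ v}), c₁ x ≠ c₂ y.1 := by
      intro x y hxy
      by_cases hx : x = u
      · rw [hx, h] at hxy
        exact y.2 (hc2 hxy).symm
      · exact hd x hx y.1 y.2 hxy
    rintro (a | a) (b | b) hab
    · exact congrArg Sum.inl (hc1 hab)
    · exact absurd hab (hcross a b)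
    · exact absurd hab.symm (hcross b a)
    · exact congrArg Sum.inr (Subtype.ext (hc2 hab))

end Pool.Agent.Lib.Helper15.Glue
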