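import Pool.Agent.Lib.Helper15.Glue.Main

/-!
# The asymmetric extremal problem for a rooted graph, and the basic inequality
-/

namespace Pool.Agent.Lib.Helper15.Glue

open SimpleGraph Finset

/-- The asymmetric extremal problem for the rooted graph `(H, r)` has the same order as the
extremal number: every graph on `n` vertices with a proper two-colouring such that all copies of
`H` have their root in the first class `P` has `O(ex(n, H) + n)` edges. For connected bipartite
`H` this says that `z(n, n, H) = O(ex(n, H) + n)`. -/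
def ESAt {W : Type*} (H : SimpleGraph W) (r : W) : Prop :=
  ∃ C : ℕ, ∀ (n : ℕ) (G : SimpleGraph (Fin n)) (P : Set (Fin n)),
    (∀ a b, G.Adj a b → (a ∈ P ↔ b ∉ P)) → (∀ c : Copy H G, c r ∈ P) →
      G.edgeSet.ncard ≤ C * (extremalNumber n H + n)

/-- Some copy of `H` in itself moves `r` along a walk of odd length. -/
def SwapAt {W : Type*} (H : SimpleGraph W) (r : W) : Prop :=
  ∃ φ : Copy H H, ∃ p : H.Walk r (φ r), Odd p.length

lemma proper_walk {W V : Type*} {H : SimpleGraph W} {G : SimpleGraph V} {P : Set V}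
    (hP : ∀ a b, G.Adj a b → (a ∈ P ↔ b ∉ P)) (c : Copy H G) {x y : W} (p : H.Walk x y) :
    (Odd p.length → (c x ∈ P ↔ c y ∉ P)) ∧ (Even p.length → (c x ∈ P ↔ c y ∈ P)) := by
  induction p with
  | nil => simp
  | @cons a b d h q ih =>
    have h1 : c a ∈ P ↔ c b ∉ P := hP _ _ (c.toHom.map_adj h)
    rw [Walk.length_cons]
    constructor
    · intro ho
      have he : Even q.length := by
        rcases Nat.even_or_odd q.length with h | h
        · exact h
        · exact absurd ho (Nat.not_odd_iff_even.2 h.add_one)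
      rw [h1, ih.2 he]
    · intro he
      have ho : Odd q.length := by
        rcases Nat.even_or_odd q.length with h | h
        · exact absurd he (Nat.not_even_iff_odd.2 h.add_one)
        · exact h
      rw [h1, ih.1 ho, not_not]

lemma esAt_of_swapAt {W : Type*} {H : SimpleGraph W} {r : W} (h : SwapAt H r) : ESAt H r := by
  classical
  obtain ⟨φ, p, hp⟩ := h
  refine ⟨1, fun n G P hP hc => ?_⟩
  have hfree : H.Free G := by
    rintro ⟨c⟩
    have h1 : c r ∈ P := hc c
    have h2 : c (φ r) ∈ P := hc (c.comp φ)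
    exact ((proper_walk hP c p).1 hp).1 h1 h2
  have h1 := card_edgeFinset_le_extremalNumber hfree
  rw [Fintype.card_fin] at h1
  rw [ncard_edgeSet]
  omega

/-- The bound of `ESAt` on an arbitrary vertex type. -/
lemma ESAt.bound {W : Type*} {H : SimpleGraph W} {r : W} (h : ESAt H r) :
    ∃ C : ℕ, ∀ {V : Type} [Fintype V] (G : SimpleGraph V) (P : Set V),
      (∀ a b, G.Adj a b → (a ∈ P ↔ b ∉ P)) → (∀ c : Copy H G, c r ∈ P) →
        G.edgeSet.ncard ≤ C * (extremalNumber (Fintype.card V) H + Fintype.card V) := by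
  classical
  obtain ⟨C, hC⟩ := h
  refine ⟨C, fun {V} _ G P hP hc => ?_⟩
  set i : G ≃g G.map (Fintype.equivFin V) := SimpleGraph.Iso.map (Fintype.equivFin V) G with hi
  have h1 := hC (Fintype.card V) (G.map (Fintype.equivFin V)) (i.symm ⁻¹' P)
    (fun a b hab => hP _ _ (i.symm.map_adj_iff.2 hab)) (fun c => hc (i.symm.toCopy.comp c))
  rw [ncard_edgeSet] at h1 ⊢
  have h2 : #G.edgeFinset = #(G.map (Fintype.equivFin V)).edgeFinset := i.card_edgeFinset_eq
  rwa [h2]

/-- The basic inequality. Suppose that `(H, r)` satisfies `ESAt`, and that `E` bounds the number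
of edges of `G[Z]` for every set `Z` all of whose vertices `w` are roots of copies of `H` which
meet `Z` in `w` only. Then `G` has `O(E + ex(n, H) + n)` edges. -/
theorem ESAt.main {W : Type*} [Fintype W] {H : SimpleGraph W} {r : W} (h : ESAt H r) :
    ∃ C : ℕ, ∀ {V : Type} [Fintype V] (G : SimpleGraph V) (E : ℕ),
      (∀ Z : Set V, (∀ w ∈ Z, ∃ c : Copy H G, c r = w ∧ ∀ x, x ≠ r → c x ∉ Z) →
        (G.induce Z).edgeSet.ncard ≤ E) →
      G.edgeSet.ncard ≤ C * (E + extremalNumber (Fintype.card V) H + Fintype.card V) := by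
  classical
  obtain ⟨C₀, hC₀⟩ := h.bound
  refine ⟨4 ^ Fintype.card W * (1 + (Fintype.card W ^ 2 + 1) + C₀ * (Fintype.card W ^ 2 + 1)) +
    Fintype.card W, fun {V} _ G E hE => ?_⟩
  obtain ⟨S, hSw, hSt, hS⟩ := exists_sets H r G
  have hpos : 0 < Fintype.card W := Fintype.card_pos_iff.2 ⟨r⟩
  set n := Fintype.card V with hn
  rcases Nat.eq_zero_or_pos n with hn0 | hn0
  · have : IsEmpty V := Fintype.card_eq_zero_iff.1 (hn.symm.trans hn0)
    have h0 : G.edgeSet = ∅ := by
      ext e
      induction e with | _ a b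
      exact this.elim a
    rw [h0, Set.ncard_empty]
    exact Nat.zero_le _
  have hB : ∀ X : Finset V,
      #{p : V × V | p.1 ∈ goodIn S X ∧ p.2 ∈ goodIn S X ∧ G.Adj p.1 p.2} ≤
        2 * E + 2 * (extremalNumber n H + Fintype.card W ^ 2) +
          2 * (C₀ * (extremalNumber n H + Fintype.card W ^ 2 + n)) := by
    intro X
    have hgood : ∀ w ∈ goodIn S X, (∃ d : Copy H G, d r = w) →
        ∃ c : Copy H G, c r = w ∧ ∀ x, x ≠ r → c x ∉ goodIn S X := by
      intro w hw hd
      obtain ⟨c, hc, hcS⟩ := hS w hd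
      refine ⟨c, hc, fun x hx hxG => ?_⟩
      exact disjoint_left.1 (mem_goodIn.1 hw).2 (hcS x hx) (mem_goodIn.1 hxG).1
    generalize goodIn S X = Y at hgood ⊢
    have h1 : #{p : V × V | p.1 ∈ Y.filter (fun w => ∃ d : Copy H G, d r = w) ∧
        p.2 ∈ Y.filter (fun w => ∃ d : Copy H G, d r = w) ∧ G.Adj p.1 p.2} ≤ 2 * E := by
      refine (pairs_le_induce G _).trans (Nat.mul_le_mul_left _ ?_)
      rw [← ncard_edgeSet]
      refine hE _ fun w hw => ?_
      obtain ⟨hw1, hw2⟩ := mem_filter.1 (mem_coe.1 hw)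
      obtain ⟨c, hc1, hc2⟩ := hgood w hw1 hw2
      exact ⟨c, hc1, fun x hx hxm => hc2 x hx (mem_filter.1 (mem_coe.1 hxm)).1⟩
    have h2 : #{p : V × V | p.1 ∈ Y.filter (fun w => ¬ ∃ d : Copy H G, d r = w) ∧
        p.2 ∈ Y.filter (fun w => ¬ ∃ d : Copy H G, d r = w) ∧ G.Adj p.1 p.2} ≤
        2 * (extremalNumber n H + Fintype.card W ^ 2) := by
      refine pairs_le H G _ fun c hc => ?_
      exact (mem_filter.1 (hc r)).2 ⟨c, rfl⟩
    have h3 : #{p : V × V | p.1 ∈ Y ∧ p.2 ∈ Y ∧
        (crossG G (fun w => ∃ d : Copy H G, d r = w)).Adj p.1 p.2} ≤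
        2 * (C₀ * (extremalNumber n H + Fintype.card W ^ 2 + n)) := by
      refine (pairs_le_induce _ Y).trans (Nat.mul_le_mul_left _ ?_)
      rw [← ncard_edgeSet]
      refine (hC₀ _ {w : (Y : Set V) | ∃ d : Copy H G, d r = w.1} ?_ ?_).trans ?_
      · rintro a b hab
        have h4 : (crossG G (fun w => ∃ d : Copy H G, d r = w)).Adj a.1 b.1 := hab
        have h5 := h4.2
        simp only [Set.mem_ofPred_eq]
        tauto
      · intro c
        obtain ⟨d, hd⟩ := exists_copy_of_crossG c
        exact ⟨d, hd r⟩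
      · refine Nat.mul_le_mul_left _ ?_
        have h6 : Fintype.card (Y : Set V) ≤ n := by simpa using card_le_univ Y
        exact Nat.add_le_add (extremalNumber_le_add H h6) h6
    refine le_trans (card_le_card (t := _ ∪ _ ∪ _) ?_) ((card_union_le _ _).trans
      (Nat.add_le_add ((card_union_le _ _).trans (Nat.add_le_add h1 h2)) h3))
    rintro ⟨a, b⟩ hab
    simp only [mem_filter, mem_univ, true_and] at hab
    obtain ⟨hab1, hab2, hab3⟩ := hab
    simp only [mem_union, mem_filter, mem_univ, true_and, crossG]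
    by_cases ha : ∃ d : Copy H G, d r = a <;> by_cases hb : ∃ d : Copy H G, d r = b <;>
      simp only [ha, hb, hab1, hab2, hab3, not_true_eq_false, not_false_eq_true, and_true,
        and_false, or_true, or_false, iff_true, iff_false, iff_self]
  have hDc : #(univ.filter (fun p : V × V => G.Adj p.1 p.2)) = 2 * G.edgeSet.ncard := by
    rw [ncard_edgeSet, two_mul_card_edgeFinset]
  have hmain := averaging (univ.filter (fun p : V × V => G.Adj p.1 p.2)) S
    (Fintype.card W - 1) _ hSt hSw (fun X => by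
      refine le_trans (card_le_card ?_) (hB X)
      intro p hp
      simp only [mem_filter, mem_univ, true_and] at hp ⊢
      exact ⟨hp.2.1, hp.2.2, hp.1⟩)
  rw [hDc, Nat.sub_add_cancel hpos] at hmain
  have h5 : (Fintype.card W - 1) * n ≤ Fintype.card W * n :=
    Nat.mul_le_mul_right _ (Nat.sub_le _ _)
  generalize extremalNumber n H = x at *
  generalize Fintype.card W = w at *
  generalize G.edgeSet.ncard = e at *
  have h6 : e ≤ 4 ^ w * (E + (x + w ^ 2) + C₀ * (x + w ^ 2 + n)) + w * n := by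
    have h7 : 4 ^ w * (2 * E + 2 * (x + w ^ 2) + 2 * (C₀ * (x + w ^ 2 + n))) =
      2 * (4 ^ w * (E + (x + w ^ 2) + C₀ * (x + w ^ 2 + n))) := by ring
    have h8 : 2 * (w - 1) * n = 2 * ((w - 1) * n) := by ring
    rw [h7, h8] at hmain
    omega
  refine h6.trans ?_
  have h9 : w ^ 2 ≤ w ^ 2 * n := Nat.le_mul_of_pos_right _ hn0
  have h10 : E + (x + w ^ 2) + C₀ * (x + w ^ 2 + n) ≤
      (1 + (w ^ 2 + 1) + C₀ * (w ^ 2 + 1)) * (E + x + n) := by
    have h11 : x + w ^ 2 ≤ (w ^ 2 + 1) * (E + x + n) := by nlinarith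
    have h12 : x + w ^ 2 + n ≤ (w ^ 2 + 1) * (E + x + n) := by nlinarith
    have h13 : C₀ * (x + w ^ 2 + n) ≤ C₀ * ((w ^ 2 + 1) * (E + x + n)) :=
      Nat.mul_le_mul_left _ h12
    nlinarith
  calc 4 ^ w * (E + (x + w ^ 2) + C₀ * (x + w ^ 2 + n)) + w * n
      ≤ 4 ^ w * ((1 + (w ^ 2 + 1) + C₀ * (w ^ 2 + 1)) * (E + x + n)) + w * (E + x + n) := by
        refine Nat.add_le_add (Nat.mul_le_mul_left _ h10) (Nat.mul_le_mul_left _ ?_)
        omega
    _ = _ := by ring

/-- If one of the two rooted graphs satisfies `ESAt` then the extremal number of the glued graph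
is at most of the order of the sum. -/
theorem ESAt.extremalNumber_glue_le {V₁ V₂ : Type*} [Fintype V₁] [Fintype V₂]
    {H₁ : SimpleGraph V₁} {u : V₁} {H₂ : SimpleGraph V₂} {v : V₂} (h : ESAt H₂ v) :
    ∃ C : ℕ, ∀ n : ℕ, extremalNumber n (glue H₁ u H₂ v) ≤
      C * (extremalNumber n H₁ + extremalNumber n H₂ + n) := by
  classical
  obtain ⟨C, hC⟩ := h.main
  refine ⟨C * (Fintype.card V₁ ^ 2 + 1), fun n => ?_⟩
  have key := (extremalNumber_le_iff (V := Fin n) (glue H₁ u H₂ v)
    (C * (Fintype.card V₁ ^ 2 + 1) * (extremalNumber n H₁ + extremalNumber n H₂ + n))).2 (by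
    intro G _ hG
    rw [← ncard_edgeSet]
    rcases Nat.eq_zero_or_pos n with hn0 | hn0
    · subst hn0
      have h0 : G.edgeSet = ∅ := by
        ext e
        induction e with | _ a b
        exact a.elim0
      rw [h0, Set.ncard_empty]
      exact Nat.zero_le _
    refine (hC G (extremalNumber n H₁ + Fintype.card V₁ ^ 2) ?_).trans ?_
    · intro Z hZ
      have hfree : H₁.Free (G.induce Z) := by
        rintro ⟨c⟩
        obtain ⟨d, hd, hdZ⟩ := hZ (c u) (c u).2
        refine hG (glue_isContained ((Copy.induce G Z).comp c) d ?_ ?_)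
        · rw [hd]; rfl
        · intro x hx y hy hxy
          apply hdZ y hy
          rw [← hxy]
          exact (c x).2
      rw [ncard_edgeSet]
      refine (card_edgeFinset_le_extremalNumber hfree).trans (extremalNumber_le_add H₁ ?_)
      simpa using set_fintype_card_le_univ Z
    · rw [Fintype.card_fin, mul_assoc]
      refine Nat.mul_le_mul_left _ ?_
      have : Fintype.card V₁ ^ 2 ≤ Fintype.card V₁ ^ 2 * n := Nat.le_mul_of_pos_right _ hn0
      nlinarith)
  rwa [Fintype.card_fin] at key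

end Pool.Agent.Lib.Helper15.Glue
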