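import Mathlib

/-!
# Extremal numbers of graphs with at least two edges are at least `n / 2`
-/

namespace Pool.Agent.Lib.Helper15.Glue

open SimpleGraph Finset

/-- The matching with edges `{2k, 2k+1}` on `n` vertices. -/
def matchG (n : ℕ) : SimpleGraph (Fin n) where
  Adj i j := i ≠ j ∧ i.val / 2 = j.val / 2
  symm := ⟨fun _ _ h => ⟨h.1.symm, h.2.symm⟩⟩
  loopless := ⟨fun _ h => h.1 rfl⟩

/-- The star with centre `0` on `n` vertices. -/
def starG (n : ℕ) : SimpleGraph (Fin n) where
  Adj i j := i ≠ j ∧ (i.val = 0 ∨ j.val = 0)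
  symm := ⟨fun _ _ h => ⟨h.1.symm, h.2.symm⟩⟩
  loopless := ⟨fun _ h => h.1 rfl⟩

lemma matchG_edges (n : ℕ) [DecidableRel (matchG n).Adj] : n / 2 ≤ #(matchG n).edgeFinset := by
  classical
  have h : #(univ : Finset (Fin (n / 2))) ≤ #(matchG n).edgeFinset := by
    refine card_le_card_of_injOn
      (fun k => s((⟨2 * k.val, by omega⟩ : Fin n), (⟨2 * k.val + 1, by omega⟩ : Fin n))) ?_ ?_
    · intro k _
      simp only [coe_edgeFinset, mem_edgeSet, matchG, ne_eq, Fin.mk.injEq]
      omega
    · intro k _ l _ hkl
      simp only [Sym2.eq_iff, Fin.mk.injEq] at hkl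
      apply Fin.ext
      omega
  simpa using h

lemma starG_edges (n : ℕ) [DecidableRel (starG n).Adj] : n / 2 ≤ #(starG n).edgeFinset := by
  classical
  have h : #(univ : Finset (Fin (n / 2))) ≤ #(starG n).edgeFinset := by
    refine card_le_card_of_injOn
      (fun k => s((⟨0, by have := k.isLt; omega⟩ : Fin n),
        (⟨k.val + 1, by have := k.isLt; omega⟩ : Fin n))) ?_ ?_
    · intro k _
      rw [mem_coe, mem_edgeFinset, mem_edgeSet]
      refine ⟨?_, Or.inl rfl⟩
      intro h
      exact absurd (congrArg Fin.val h) (by simp)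
    · intro k _ l _ hkl
      simp only [Sym2.eq_iff, Fin.mk.injEq] at hkl
      apply Fin.ext
      omega
  simpa using h

/-- If `H` has two distinct edges, then some graph on `n` vertices with at least `n / 2` edges
is `H`-free. -/
theorem half_le_extremalNumber {W : Type*} (H : SimpleGraph W)
    (h : ∃ e ∈ H.edgeSet, ∃ f ∈ H.edgeSet, e ≠ f) (n : ℕ) :
    n / 2 ≤ extremalNumber n H := by
  classical
  by_cases hd : ∃ x y z, H.Adj x y ∧ H.Adj x z ∧ y ≠ z
  · obtain ⟨x, y, z, hxy, hxz, hyz⟩ := hd
    have hfree : H.Free (matchG n) := by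
      rintro ⟨c⟩
      have h1 : (matchG n).Adj (c x) (c y) := c.toHom.map_adj hxy
      have h2 : (matchG n).Adj (c x) (c z) := c.toHom.map_adj hxz
      have h3 : c y ≠ c z := fun h => hyz (c.injective h)
      simp only [matchG, ne_eq, Fin.ext_iff] at h1 h2 h3
      omega
    have := card_edgeFinset_le_extremalNumber hfree
    rw [Fintype.card_fin] at this
    exact (matchG_edges n).trans this
  · obtain ⟨e, he, f, hf, hef⟩ := h
    induction e with | _ a b
    induction f with | _ x y
    rw [mem_edgeSet] at he hf
    have hax : a ≠ x := by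
      rintro rfl
      by_cases hby : b = y
      · exact hef (by rw [hby])
      · exact hd ⟨a, b, y, he, hf, hby⟩
    have hay : a ≠ y := by
      rintro rfl
      by_cases hbx : b = x
      · exact hef (by rw [hbx]; exact Sym2.eq_swap)
      · exact hd ⟨a, b, x, he, hf.symm, hbx⟩
    have hbx : b ≠ x := by
      rintro rfl
      by_cases hay' : a = y
      · exact hay hay'
      · exact hd ⟨b, a, y, he.symm, hf, hay'⟩
    have hby : b ≠ y := by
      rintro rfl
      by_cases hax' : a = x
      · exact hax hax'
      · exact hd ⟨b, a, x, he.symm, hf.symm, hax'⟩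
    have hfree : H.Free (starG n) := by
      rintro ⟨c⟩
      have h1 : (starG n).Adj (c a) (c b) := c.toHom.map_adj he
      have h2 : (starG n).Adj (c x) (c y) := c.toHom.map_adj hf
      have h3 : c a ≠ c x := fun h => hax (c.injective h)
      have h4 : c a ≠ c y := fun h => hay (c.injective h)
      have h5 : c b ≠ c x := fun h => hbx (c.injective h)
      have h6 : c b ≠ c y := fun h => hby (c.injective h)
      simp only [starG, ne_eq, Fin.ext_iff] at h1 h2 h3 h4 h5 h6
      omega
    have := card_edgeFinset_le_extremalNumber hfree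
    rw [Fintype.card_fin] at this
    exact (starG_edges n).trans this

end Pool.Agent.Lib.Helper15.Glue
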