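import Pool.Agent.Lib.Helper15.Glue.Star
import Pool.Agent.Lib.Helper15.Glue.Count

/-!
# The upper bound for the extremal number of a glued graph
-/

namespace Pool.Agent.Lib.Helper15.Glue

open SimpleGraph Finset

/-- Ordered adjacent pairs inside `Z` are counted by the edges of the induced subgraph. -/
lemma pairs_le_induce {V : Type*} [Fintype V] [DecidableEq V] (G : SimpleGraph V)
    [DecidableRel G.Adj] (Z : Finset V) [DecidableRel (G.induce (Z : Set V)).Adj]
    [Fintype (Z : Set V)] :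
    #{p : V × V | p.1 ∈ Z ∧ p.2 ∈ Z ∧ G.Adj p.1 p.2} ≤
      2 * #(G.induce (Z : Set V)).edgeFinset := by
  rw [two_mul_card_edgeFinset]
  refine card_le_card_of_surjOn (fun q => (q.1.1, q.2.1)) ?_
  rintro ⟨a, b⟩ hab
  simp only [coe_filter, mem_univ, true_and, Set.mem_ofPred_eq] at hab
  refine ⟨(⟨a, hab.1⟩, ⟨b, hab.2.1⟩), ?_, rfl⟩
  simp only [coe_filter, mem_univ, true_and, Set.mem_ofPred_eq]
  exact hab.2.2

lemma pairs_le {V W : Type*} [Fintype V] [DecidableEq V] [Fintype W] (H : SimpleGraph W)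
    (G : SimpleGraph V) [DecidableRel G.Adj] (Z : Finset V)
    (hZ : ∀ c : Copy H G, ¬ ∀ x, c x ∈ Z) :
    #{p : V × V | p.1 ∈ Z ∧ p.2 ∈ Z ∧ G.Adj p.1 p.2} ≤
      2 * (extremalNumber (Fintype.card V) H + Fintype.card W ^ 2) := by
  classical
  refine (pairs_le_induce G Z).trans (Nat.mul_le_mul_left _ ?_)
  have hfree : H.Free (G.induce (Z : Set V)) := by
    rintro ⟨c⟩
    refine hZ ((Copy.induce G (Z : Set V)).comp c) fun x => ?_
    exact (c x).2
  have h1 := card_edgeFinset_le_extremalNumber hfree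
  refine h1.trans (extremalNumber_le_add H ?_)
  simpa using card_le_univ Z

variable {V₁ V₂ : Type*} [Fintype V₁]

lemma exists_sets {V : Type*} (H₁ : SimpleGraph V₁) (u : V₁) (G : SimpleGraph V) :
    ∃ S : V → Finset V, (∀ w, w ∉ S w) ∧ (∀ w, #(S w) ≤ Fintype.card V₁ - 1) ∧
      ∀ w, (∃ c : Copy H₁ G, c u = w) →
        ∃ c : Copy H₁ G, c u = w ∧ ∀ x, x ≠ u → c x ∈ S w := by
  classical
  have h : ∀ w : V, ∃ T : Finset V, w ∉ T ∧ #T ≤ Fintype.card V₁ - 1 ∧
      ((∃ c : Copy H₁ G, c u = w) → ∃ c : Copy H₁ G, c u = w ∧ ∀ x, x ≠ u → c x ∈ T) := by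
    intro w
    by_cases hw : ∃ c : Copy H₁ G, c u = w
    · obtain ⟨c, hc⟩ := hw
      refine ⟨(univ.erase u).image c, ?_, ?_, fun _ => ⟨c, hc, fun x hx =>
        mem_image_of_mem _ (mem_erase.2 ⟨hx, mem_univ _⟩)⟩⟩
      · intro hm
        obtain ⟨x, hx, hxw⟩ := mem_image.1 hm
        exact (mem_erase.1 hx).1 (c.injective (hxw.trans hc.symm))
      · refine card_image_le.trans ?_
        rw [card_erase_of_mem (mem_univ _), card_univ]
    · exact ⟨∅, notMem_empty _, by simp, fun h => absurd h hw⟩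
  choose S h1 h2 h3 using h
  exact ⟨S, h1, h2, h3⟩

lemma mem_goodIn {V : Type*} [DecidableEq V] {S : V → Finset V} {X : Finset V} {w : V} :
    w ∈ goodIn S X ↔ w ∈ X ∧ Disjoint (S w) X := by
  rw [goodIn, mem_filter]

omit [Fintype V₁] in
/-- No copy of the second graph inside `goodIn S X` has its root at the root of a copy of the
first graph. -/
lemma root_of_free {V : Type*} [DecidableEq V] {H₁ : SimpleGraph V₁} {u : V₁}
    {H₂ : SimpleGraph V₂} {v : V₂} {G : SimpleGraph V}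
    (hfree : (glue H₁ u H₂ v).Free G) {S : V → Finset V}
    (hS : ∀ w, (∃ c : Copy H₁ G, c u = w) → ∃ c : Copy H₁ G, c u = w ∧ ∀ x, x ≠ u → c x ∈ S w)
    (X : Finset V) (c : Copy H₂ G) (hc : ∀ x, c x ∈ goodIn S X) :
    ¬ ∃ d : Copy H₁ G, d u = c v := by
  intro hq
  obtain ⟨d, hd, hdS⟩ := hS _ hq
  refine hfree (glue_isContained d c hd ?_)
  intro x hx y _ hxy
  have h2 : Disjoint (S (c v)) X := (mem_goodIn.1 (hc v)).2
  have h3 : c y ∈ X := (mem_goodIn.1 (hc y)).1
  exact disjoint_left.1 h2 (hdS x hx) (hxy ▸ h3)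

/-- The subgraph of edges with exactly one end satisfying `Q`. -/
def crossG {V : Type*} (G : SimpleGraph V) (Q : V → Prop) : SimpleGraph V where
  Adj a b := G.Adj a b ∧ (¬ Q a ↔ Q b)
  symm := ⟨fun a b h => ⟨h.1.symm, by have := h.2; tauto⟩⟩
  loopless := ⟨fun a h => G.loopless.irrefl a h.1⟩

lemma crossG_le {V : Type*} (G : SimpleGraph V) (Q : V → Prop) : crossG G Q ≤ G :=
  fun _ _ h => h.1

lemma exists_copy_of_crossG {V W : Type*} {K : SimpleGraph W} {G : SimpleGraph V}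
    {Q : V → Prop} {Y : Set V} (c : Copy K ((crossG G Q).induce Y)) :
    ∃ d : Copy K G, ∀ x, d x = (c x).1 :=
  ⟨(Copy.ofLE _ G (crossG_le G _)).comp ((Copy.induce _ Y).comp c), fun _ => rfl⟩

/-- The bound for the ordered pairs inside `goodIn S X`. -/
lemma pairs_goodIn_le [Fintype V₂] {V : Type*} [Fintype V] [DecidableEq V]
    {H₁ : SimpleGraph V₁} {u : V₁} {H₂ : SimpleGraph V₂} {v : V₂} {G : SimpleGraph V}
    [DecidableRel G.Adj] (hfree : (glue H₁ u H₂ v).Free G) {S : V → Finset V}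
    (hS : ∀ w, (∃ c : Copy H₁ G, c u = w) → ∃ c : Copy H₁ G, c u = w ∧ ∀ x, x ≠ u → c x ∈ S w)
    (X : Finset V) :
    #{p : V × V | p.1 ∈ goodIn S X ∧ p.2 ∈ goodIn S X ∧ G.Adj p.1 p.2} ≤
      2 * (extremalNumber (Fintype.card V) H₁ + Fintype.card V₁ ^ 2) +
        2 * (extremalNumber (Fintype.card V) H₂ + Fintype.card V₂ ^ 2) +
        2 * zStar H₁ u H₂ v (Fintype.card V) := by
  classical
  have hroot := root_of_free hfree hS X
  generalize goodIn S X = Y at hroot ⊢
  have h1 : #{p : V × V | p.1 ∈ Y.filter (fun w => ¬ ∃ d : Copy H₁ G, d u = w) ∧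
      p.2 ∈ Y.filter (fun w => ¬ ∃ d : Copy H₁ G, d u = w) ∧ G.Adj p.1 p.2} ≤
      2 * (extremalNumber (Fintype.card V) H₁ + Fintype.card V₁ ^ 2) := by
    refine pairs_le H₁ G _ fun c hc => ?_
    exact (mem_filter.1 (hc u)).2 ⟨c, rfl⟩
  have h2 : #{p : V × V | p.1 ∈ Y.filter (fun w => ∃ d : Copy H₁ G, d u = w) ∧
      p.2 ∈ Y.filter (fun w => ∃ d : Copy H₁ G, d u = w) ∧ G.Adj p.1 p.2} ≤
      2 * (extremalNumber (Fintype.card V) H₂ + Fintype.card V₂ ^ 2) := by
    refine pairs_le H₂ G _ fun c hc => ?_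
    exact hroot c (fun x => (mem_filter.1 (hc x)).1) (mem_filter.1 (hc v)).2
  have h3 : #{p : V × V | p.1 ∈ Y ∧ p.2 ∈ Y ∧
      (crossG G (fun w => ∃ d : Copy H₁ G, d u = w)).Adj p.1 p.2} ≤
      2 * zStar H₁ u H₂ v (Fintype.card V) := by
    refine (pairs_le_induce _ Y).trans (Nat.mul_le_mul_left _ ?_)
    refine card_le_zStar (P := {w : (Y : Set V) | ¬ ∃ d : Copy H₁ G, d u = w.1})
      ⟨?_, ?_, ?_⟩ ?_
    · rintro a b hab
      have h4 : (crossG G (fun w => ∃ d : Copy H₁ G, d u = w)).Adj a.1 b.1 := hab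
      have h5 := h4.2
      simp only [Set.mem_ofPred_eq, not_not]
      exact h5
    · intro c hcP
      obtain ⟨d, hd⟩ := exists_copy_of_crossG c
      exact hcP ⟨d, hd u⟩
    · intro c
      obtain ⟨d, hd⟩ := exists_copy_of_crossG c
      have := hroot d (fun x => by rw [hd]; exact (c x).2)
      rw [hd v] at this
      exact this
    · simpa using card_le_univ Y
  refine le_trans (card_le_card (t := _ ∪ _ ∪ _) ?_) ((card_union_le _ _).trans
    (Nat.add_le_add ((card_union_le _ _).trans (Nat.add_le_add h1 h2)) h3))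
  rintro ⟨a, b⟩ hab
  simp only [mem_filter, mem_univ, true_and] at hab
  obtain ⟨hab1, hab2, hab3⟩ := hab
  simp only [mem_union, mem_filter, mem_univ, true_and, crossG]
  by_cases ha : ∃ d : Copy H₁ G, d u = a <;> by_cases hb : ∃ d : Copy H₁ G, d u = b <;>
    simp only [ha, hb, hab1, hab2, hab3, not_true_eq_false, not_false_eq_true, and_true,
      and_false, or_true, or_false, iff_true, iff_false, iff_self]

/-- The main inequality: a graph on `n` vertices without the glued graph has at most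
`4 ^ |V(H₁)| (ex(n, H₁) + ex(n, H₂) + z(n) + O(1)) + |V(H₁)| n` edges. -/
theorem edges_le [Fintype V₂] (H₁ : SimpleGraph V₁) (u : V₁) (H₂ : SimpleGraph V₂) (v : V₂)
    {V : Type*} [Fintype V] (G : SimpleGraph V) [DecidableRel G.Adj]
    (hfree : (glue H₁ u H₂ v).Free G) :
    #G.edgeFinset ≤ 4 ^ Fintype.card V₁ *
      ((extremalNumber (Fintype.card V) H₁ + Fintype.card V₁ ^ 2) +
        (extremalNumber (Fintype.card V) H₂ + Fintype.card V₂ ^ 2) +
        zStar H₁ u H₂ v (Fintype.card V)) + Fintype.card V₁ * Fintype.card V := by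
  classical
  obtain ⟨S, hSw, hSt, hS⟩ := exists_sets H₁ u G
  have hpos : 0 < Fintype.card V₁ := Fintype.card_pos_iff.2 ⟨u⟩
  have hDc : #(univ.filter (fun p : V × V => G.Adj p.1 p.2)) = 2 * #G.edgeFinset := by
    rw [two_mul_card_edgeFinset]
  have hB := pairs_goodIn_le hfree hS
  have hmain := averaging (univ.filter (fun p : V × V => G.Adj p.1 p.2)) S
    (Fintype.card V₁ - 1) _ hSt hSw (fun X => by
      refine le_trans (card_le_card ?_) (hB X)
      intro p hp
      simp only [mem_filter, mem_univ, true_and] at hp ⊢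
      exact ⟨hp.2.1, hp.2.2, hp.1⟩)
  rw [hDc, Nat.sub_add_cancel hpos] at hmain
  have h5 : (Fintype.card V₁ - 1) * Fintype.card V ≤ Fintype.card V₁ * Fintype.card V :=
    Nat.mul_le_mul_right _ (Nat.sub_le _ _)
  generalize extremalNumber (Fintype.card V) H₁ + Fintype.card V₁ ^ 2 = x at *
  generalize extremalNumber (Fintype.card V) H₂ + Fintype.card V₂ ^ 2 = y at *
  generalize zStar H₁ u H₂ v (Fintype.card V) = z at *
  have h6 : 4 ^ Fintype.card V₁ * (2 * x + 2 * y + 2 * z) =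
    2 * (4 ^ Fintype.card V₁ * (x + y + z)) := by ring
  have h7 : 2 * (Fintype.card V₁ - 1) * Fintype.card V =
    2 * ((Fintype.card V₁ - 1) * Fintype.card V) := by ring
  rw [h6, h7] at hmain
  omega

/-- The master upper bound. -/
theorem extremalNumber_glue_le [Fintype V₂] (H₁ : SimpleGraph V₁) (u : V₁)
    (H₂ : SimpleGraph V₂) (v : V₂) (n : ℕ) :
    extremalNumber n (glue H₁ u H₂ v) ≤ 4 ^ Fintype.card V₁ *
      ((extremalNumber n H₁ + Fintype.card V₁ ^ 2) +
        (extremalNumber n H₂ + Fintype.card V₂ ^ 2) + zStar H₁ u H₂ v n) +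
          Fintype.card V₁ * n := by
  classical
  have h := (extremalNumber_le_iff (V := Fin n) (glue H₁ u H₂ v) (4 ^ Fintype.card V₁ *
      ((extremalNumber n H₁ + Fintype.card V₁ ^ 2) +
        (extremalNumber n H₂ + Fintype.card V₂ ^ 2) + zStar H₁ u H₂ v n) +
          Fintype.card V₁ * n)).2 (by
    intro G _ hG
    have := edges_le H₁ u H₂ v G hG
    rwa [Fintype.card_fin] at this)
  rwa [Fintype.card_fin] at h

end Pool.Agent.Lib.Helper15.Glue
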