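import Pool.Agent.Lib.Helper15.Glue.Defs
import Pool.Agent.Lib.Helper15.Glue.Ex

/-!
# Two-coloured graphs avoiding both rooted graphs
-/

namespace Pool.Agent.Lib.Helper15.Glue

open SimpleGraph Finset

variable {V₁ V₂ : Type*}

/-- The two classes `P` and its complement form a proper two-colouring of `G`, no copy of `H₁`
in `G` sends `u` into `P`, and no copy of `H₂` in `G` sends `v` outside `P`. -/
def Avoids (H₁ : SimpleGraph V₁) (u : V₁) (H₂ : SimpleGraph V₂) (v : V₂) {V : Type*}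
    (G : SimpleGraph V) (P : Set V) : Prop :=
  (∀ a b, G.Adj a b → (a ∈ P ↔ b ∉ P)) ∧ (∀ c : Copy H₁ G, c u ∉ P) ∧ ∀ c : Copy H₂ G, c v ∈ P

/-- The largest number of edges of a graph on at most `n` vertices which has a proper
two-colouring (by `P` and its complement) with no copy of `H₁` sending `u` into `P` and no copy
of `H₂` sending `v` outside `P`. -/
noncomputable def zStar (H₁ : SimpleGraph V₁) (u : V₁) (H₂ : SimpleGraph V₂) (v : V₂)
    (n : ℕ) : ℕ :=
  sSup {m | ∃ k ≤ n, ∃ (G : SimpleGraph (Fin k)) (P : Set (Fin k)),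
    Avoids H₁ u H₂ v G P ∧ G.edgeSet.ncard = m}

/-- Whatever proper two-colouring of `K` is chosen, with classes `P` and its complement, there
is a copy of `H₁` in `K` sending `u` into `P` or a copy of `H₂` sending `v` outside `P`. -/
def Unavoidable (H₁ : SimpleGraph V₁) (u : V₁) (H₂ : SimpleGraph V₂) (v : V₂) {W : Type*}
    (K : SimpleGraph W) : Prop :=
  ∀ P : Set W, (∀ a b, K.Adj a b → (a ∈ P ↔ b ∉ P)) →
    (∃ c : Copy H₁ K, c u ∈ P) ∨ ∃ c : Copy H₂ K, c v ∉ P

variable {H₁ : SimpleGraph V₁} {u : V₁} {H₂ : SimpleGraph V₂} {v : V₂}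

lemma ncard_edgeSet {V : Type*} [Fintype V] (G : SimpleGraph V) [DecidableRel G.Adj] :
    G.edgeSet.ncard = #G.edgeFinset := by
  classical
  rw [Set.ncard_eq_toFinset_card']
  rfl

lemma zStar_bddAbove (n : ℕ) : BddAbove {m | ∃ k ≤ n, ∃ (G : SimpleGraph (Fin k))
    (P : Set (Fin k)), Avoids H₁ u H₂ v G P ∧ G.edgeSet.ncard = m} := by
  classical
  refine ⟨n ^ 2, ?_⟩
  rintro m ⟨k, hk, G, P, -, rfl⟩
  rw [ncard_edgeSet]
  calc #G.edgeFinset ≤ (Fintype.card (Fin k)).choose 2 := card_edgeFinset_le_card_choose_two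
    _ = k.choose 2 := by rw [Fintype.card_fin]
    _ ≤ k ^ 2 := Nat.choose_le_pow k 2
    _ ≤ n ^ 2 := Nat.pow_le_pow_left hk 2

/-- Any finite graph with a two-colouring avoiding both rooted graphs has at most `zStar`
edges. -/
lemma card_le_zStar {V : Type*} [Fintype V] {G : SimpleGraph V} [DecidableRel G.Adj]
    {P : Set V} (h : Avoids H₁ u H₂ v G P) {n : ℕ} (hn : Fintype.card V ≤ n) :
    #G.edgeFinset ≤ zStar H₁ u H₂ v n := by
  classical
  set e := Fintype.equivFin V with he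
  set G' : SimpleGraph (Fin (Fintype.card V)) := G.map e with hG'
  set i : G ≃g G' := SimpleGraph.Iso.map e G with hi
  have hcard : #G.edgeFinset = #G'.edgeFinset := i.card_edgeFinset_eq
  rw [hcard, ← ncard_edgeSet]
  refine le_csSup (zStar_bddAbove n) ⟨Fintype.card V, hn, G', i.symm ⁻¹' P, ⟨?_, ?_, ?_⟩, rfl⟩
  · intro a b hab
    exact h.1 _ _ (i.symm.map_adj_iff.2 hab)
  · intro c
    exact h.2.1 (i.symm.toCopy.comp c)
  · intro c
    exact h.2.2 (i.symm.toCopy.comp c)

/-- A graph with a two-colouring avoiding both rooted graphs contains no unavoidable graph. -/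
lemma Avoids.free {V W : Type*} {G : SimpleGraph V} {P : Set V} (h : Avoids H₁ u H₂ v G P)
    {K : SimpleGraph W} (hK : Unavoidable H₁ u H₂ v K) : K.Free G := by
  rintro ⟨c⟩
  rcases hK (c ⁻¹' P) (fun a b hab => h.1 _ _ (c.toHom.map_adj hab)) with ⟨σ, hσ⟩ | ⟨τ, hτ⟩
  · exact h.2.1 (c.comp σ) hσ
  · exact hτ (h.2.2 (c.comp τ))

lemma unavoidable_glue (H₁ : SimpleGraph V₁) (u : V₁) (H₂ : SimpleGraph V₂) (v : V₂) :
    Unavoidable H₁ u H₂ v (glue H₁ u H₂ v) := by
  intro P _
  by_cases h : (Sum.inl u : V₁ ⊕ {x : V₂ // x ≠ v}) ∈ P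
  · exact Or.inl ⟨⟨⟨Sum.inl, fun {_ _} h => Or.inl (map_adj_apply' h
      (Sum.inl_injective.ne h.ne))⟩, Sum.inl_injective⟩, h⟩
  · refine Or.inr ⟨⟨⟨glueMap u v, fun {_ _} h => Or.inr (map_adj_apply' h
      ((glueMap_injective u v).ne h.ne))⟩, glueMap_injective u v⟩, ?_⟩
    intro h'
    apply h
    have : glueMap u v v ∈ P := h'
    rwa [glueMap_self] at this

/-- `zStar` is at most the extremal number of any unavoidable graph, up to a constant. -/
theorem zStar_le {W : Type*} [Fintype W] {K : SimpleGraph W}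
    (hK : Unavoidable H₁ u H₂ v K) (n : ℕ) :
    zStar H₁ u H₂ v n ≤ extremalNumber n K + Fintype.card W ^ 2 := by
  classical
  rcases Set.eq_empty_or_nonempty {m | ∃ k ≤ n, ∃ (G : SimpleGraph (Fin k))
    (P : Set (Fin k)), Avoids H₁ u H₂ v G P ∧ G.edgeSet.ncard = m} with h0 | h0
  · rw [zStar, h0]
    simp
  · refine csSup_le h0 ?_
    rintro m ⟨k, hk, G, P, hG, rfl⟩
    rw [ncard_edgeSet]
    have h1 := card_edgeFinset_le_extremalNumber (hG.free hK)
    rw [Fintype.card_fin] at h1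
    exact h1.trans (extremalNumber_le_add K hk)

end Pool.Agent.Lib.Helper15.Glue
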