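import Pool.Agent.Lib.Helper15.Glue.Blocks
import Pool.Agent.Lib.Helper15.Glue.Linear

/-!
# Orders of magnitude
-/

namespace Pool.Agent.Lib.Helper15.Glue

open SimpleGraph Asymptotics Filter

variable {V₁ V₂ : Type*} [Fintype V₁] [Fintype V₂]

lemma le_mul_add {H₁ : SimpleGraph V₁} {H₂ : SimpleGraph V₂} (h₁ : 1 ≤ H₁.edgeSet.ncard)
    (_h₂ : 1 ≤ H₂.edgeSet.ncard) (h₃ : 3 ≤ H₁.edgeSet.ncard + H₂.edgeSet.ncard) (n : ℕ)
    (hn : 2 ≤ n) : n ≤ 4 * (extremalNumber n H₁ + extremalNumber n H₂) := by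
  rcases Nat.lt_or_ge 1 H₁.edgeSet.ncard with h | h
  · obtain ⟨e, f, he, hf, hef⟩ := (Set.one_lt_ncard_iff (Set.toFinite _)).1 h
    have := half_le_extremalNumber H₁ ⟨e, he, f, hf, hef⟩ n
    omega
  · obtain ⟨e, f, he, hf, hef⟩ := (Set.one_lt_ncard_iff (Set.toFinite _)).1
      (show 1 < H₂.edgeSet.ncard by omega)
    have := half_le_extremalNumber H₂ ⟨e, he, f, hf, hef⟩ n
    omega

/-- The copy of the first graph in the glued graph. -/
def leftCopy (H₁ : SimpleGraph V₁) (u : V₁) (H₂ : SimpleGraph V₂) (v : V₂) :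
    Copy H₁ (glue H₁ u H₂ v) :=
  ⟨⟨Sum.inl, fun {_ _} h => Or.inl (map_adj_apply' h (Sum.inl_injective.ne h.ne))⟩,
    Sum.inl_injective⟩

/-- The copy of the second graph in the glued graph. -/
noncomputable def rightCopy (H₁ : SimpleGraph V₁) (u : V₁) (H₂ : SimpleGraph V₂) (v : V₂) :
    Copy H₂ (glue H₁ u H₂ v) :=
  ⟨⟨glueMap u v, fun {_ _} h => Or.inr (map_adj_apply' h ((glueMap_injective u v).ne h.ne))⟩,
    glueMap_injective u v⟩

omit [Fintype V₁] [Fintype V₂] in
lemma glue_comm (H₁ : SimpleGraph V₁) (u : V₁) (H₂ : SimpleGraph V₂) (v : V₂) :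
    glue H₂ v H₁ u ⊑ glue H₁ u H₂ v := by
  refine glue_isContained (rightCopy H₁ u H₂ v) (leftCopy H₁ u H₂ v) (glueMap_self u v) ?_
  intro x hx y _ hxy
  have h1 : glueMap u v x = Sum.inl y := hxy
  rw [glueMap_of_ne u hx] at h1
  exact absurd h1 (by simp)

omit [Fintype V₁] [Fintype V₂] in
lemma add_le_extremalNumber_glue (H₁ : SimpleGraph V₁) (u : V₁) (H₂ : SimpleGraph V₂) (v : V₂)
    (n : ℕ) : extremalNumber n H₁ + extremalNumber n H₂ ≤
      2 * extremalNumber n (glue H₁ u H₂ v) := by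
  have h1 := (left_isContained H₁ u H₂ v).extremalNumber_le (n := n)
  have h2 := (right_isContained H₁ u H₂ v).extremalNumber_le (n := n)
  omega

/-- From an upper bound with a linear term to the order of magnitude. -/
lemma isTheta_of_le {H₁ : SimpleGraph V₁} {u : V₁} {H₂ : SimpleGraph V₂} {v : V₂}
    (h₁ : 1 ≤ H₁.edgeSet.ncard) (h₂ : 1 ≤ H₂.edgeSet.ncard)
    (h₃ : 3 ≤ H₁.edgeSet.ncard + H₂.edgeSet.ncard) {C : ℕ}
    (hC : ∀ n : ℕ, extremalNumber n (glue H₁ u H₂ v) ≤
      C * (extremalNumber n H₁ + extremalNumber n H₂ + n)) :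
    (fun n : ℕ => (extremalNumber n (glue H₁ u H₂ v) : ℝ)) =Θ[atTop]
      fun n : ℕ => (extremalNumber n H₁ + extremalNumber n H₂ : ℝ) := by
  constructor
  · refine IsBigO.of_bound (5 * C : ℝ) ?_
    filter_upwards [eventually_ge_atTop 2] with n hn
    have hl := le_mul_add h₁ h₂ h₃ n hn
    have h4 : extremalNumber n (glue H₁ u H₂ v) ≤
        5 * C * (extremalNumber n H₁ + extremalNumber n H₂) := by
      refine (hC n).trans ?_
      calc C * (extremalNumber n H₁ + extremalNumber n H₂ + n) ≤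
          C * (5 * (extremalNumber n H₁ + extremalNumber n H₂)) :=
            Nat.mul_le_mul_left _ (by omega)
        _ = _ := by ring
    have h5 : (extremalNumber n (glue H₁ u H₂ v) : ℝ) ≤
        5 * C * (extremalNumber n H₁ + extremalNumber n H₂) := by exact_mod_cast h4
    rw [Real.norm_of_nonneg (by positivity), Real.norm_of_nonneg (by positivity)]
    exact h5
  · refine IsBigO.of_bound (2 : ℝ) (Eventually.of_forall fun n => ?_)
    have h5 : (extremalNumber n H₁ + extremalNumber n H₂ : ℝ) ≤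
        2 * extremalNumber n (glue H₁ u H₂ v) := by
      exact_mod_cast add_le_extremalNumber_glue H₁ u H₂ v n
    rw [Real.norm_of_nonneg (by positivity), Real.norm_of_nonneg (by positivity)]
    exact h5

/-- The order of magnitude when one of the two rooted graphs satisfies `ESAt`. -/
theorem isTheta_of_esAt {H₁ : SimpleGraph V₁} {u : V₁} {H₂ : SimpleGraph V₂} {v : V₂}
    (h₁ : 1 ≤ H₁.edgeSet.ncard) (h₂ : 1 ≤ H₂.edgeSet.ncard)
    (h₃ : 3 ≤ H₁.edgeSet.ncard + H₂.edgeSet.ncard) (h : ESAt H₁ u ∨ ESAt H₂ v) :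
    (fun n : ℕ => (extremalNumber n (glue H₁ u H₂ v) : ℝ)) =Θ[atTop]
      fun n : ℕ => (extremalNumber n H₁ + extremalNumber n H₂ : ℝ) := by
  rcases h with h | h
  · obtain ⟨C, hC⟩ := h.extremalNumber_glue_le (H₁ := H₂) (u := v)
    refine isTheta_of_le h₁ h₂ h₃ (C := C) fun n => ?_
    refine ((glue_comm H₂ v H₁ u).extremalNumber_le (n := n)).trans ((hC n).trans ?_)
    rw [add_comm (extremalNumber n H₂)]
  · obtain ⟨C, hC⟩ := h.extremalNumber_glue_le (H₁ := H₁) (u := u)
    exact isTheta_of_le h₁ h₂ h₃ hC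

/-- If gluing two copies of `H` at the two ends of an edge `x y` does not change the order of the
extremal number, then `ESAt` holds at `y`. -/
theorem esAt_of_isBigO {W : Type*} {H : SimpleGraph W} {x y : W} (hxy : H.Adj x y)
    (h : (fun n : ℕ => (extremalNumber n (glue H x H y) : ℝ)) =O[atTop]
      fun n : ℕ => (extremalNumber n H : ℝ)) : ESAt H y := by
  classical
  obtain ⟨c, hc⟩ := h.bound
  obtain ⟨N, hN⟩ := eventually_atTop.1 hc
  refine ⟨⌈c⌉₊ + N, fun n G P hP hcop => ?_⟩
  rw [ncard_edgeSet]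
  rcases le_or_gt N n with hn | hn
  · have hfree : (glue H x H y).Free G := by
      rintro ⟨d⟩
      have h1 : d (leftCopy H x H y y) ∈ P := hcop (d.comp (leftCopy H x H y))
      have h2 : d (rightCopy H x H y y) ∈ P := hcop (d.comp (rightCopy H x H y))
      have h3 : rightCopy H x H y y = leftCopy H x H y x := glueMap_self x y
      rw [h3] at h2
      have h4 : G.Adj (d (leftCopy H x H y x)) (d (leftCopy H x H y y)) :=
        d.toHom.map_adj ((leftCopy H x H y).toHom.map_adj hxy)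
      exact (hP _ _ h4).1 h2 h1
    have h1 := card_edgeFinset_le_extremalNumber hfree
    rw [Fintype.card_fin] at h1
    have h2 := hN n hn
    rw [Real.norm_of_nonneg (by positivity), Real.norm_of_nonneg (by positivity)] at h2
    have h3 : (extremalNumber n (glue H x H y) : ℝ) ≤ (⌈c⌉₊ * extremalNumber n H : ℕ) := by
      rw [Nat.cast_mul]
      exact h2.trans (mul_le_mul_of_nonneg_right (Nat.le_ceil c) (by positivity))
    have h4 : extremalNumber n (glue H x H y) ≤ ⌈c⌉₊ * extremalNumber n H := by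
      exact_mod_cast h3
    calc G.edgeFinset.card ≤ ⌈c⌉₊ * extremalNumber n H := h1.trans h4
      _ ≤ (⌈c⌉₊ + N) * (extremalNumber n H + n) :=
        Nat.mul_le_mul (Nat.le_add_right _ _) (Nat.le_add_right _ _)
  · calc G.edgeFinset.card ≤ (Fintype.card (Fin n)).choose 2 :=
          card_edgeFinset_le_card_choose_two
      _ = n.choose 2 := by rw [Fintype.card_fin]
      _ ≤ n ^ 2 := Nat.choose_le_pow n 2
      _ = n * n := sq n
      _ ≤ (⌈c⌉₊ + N) * (extremalNumber n H + n) :=
        Nat.mul_le_mul (hn.le.trans (Nat.le_add_left _ _)) (Nat.le_add_left _ _)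

/-- A vertex of a 2-connected graph has a neighbour. -/
lemma TwoConn.exists_adj {W : Type*} {H : SimpleGraph W} {B : Set W} (hB : TwoConn H B)
    (r : B) : ∃ x : B, (H.induce B).Adj x r := by
  by_contra hcon
  push Not at hcon
  have h1 : ∀ b : B, b = r := by
    intro b
    refine preconn_invariant hB.2.1.preconnected (fun b => b = r) ?_ (a := r) rfl b
    rintro a b hab rfl
    exact absurd hab.symm (hcon b)
  have h3 := hB.1
  have hfin : Finite B := (Set.finite_of_ncard_pos (by omega : 0 < B.ncard)).to_subtype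
  have h2 : B.ncard ≤ 1 := by
    refine Set.ncard_le_one_iff_subsingleton.2 ?_
    intro a ha b hb
    have h3 := h1 ⟨a, ha⟩
    have h4 := h1 ⟨b, hb⟩
    exact congrArg Subtype.val (h3.trans h4.symm)
  omega

/-- `ESAt` for a finite graph from the gluing bound for its 2-connected blocks. -/
theorem esAt_of_blocks {W : Type*} [Finite W] (H : SimpleGraph W)
    (h : ∀ B, IsBlock H B → ∀ x y : B, (H.induce B).Adj x y →
      (fun n : ℕ => (extremalNumber n (glue (H.induce B) x (H.induce B) y) : ℝ)) =O[atTop]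
        fun n : ℕ => (extremalNumber n (H.induce B) : ℝ)) (v : W) : ESAt H v := by
  refine esAt_of_isBlock H (fun B hB r => ?_) v
  obtain ⟨x, hx⟩ := hB.prop.exists_adj r
  exact esAt_of_isBigO hx (h B hB x r hx)

end Pool.Agent.Lib.Helper15.Glue
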